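import Mathlib

/-!
# Similarity tilings by finitely many prototiles: definitions and basic facts

The proof of the starting file `NoForcingPrototile` (one prototile, closed disks in the Euclidean
plane) is carried over to finitely many prototiles in a finite-dimensional normed space.
-/

set_option autoImplicit false
set_option linter.unusedSectionVars false

namespace Pool.Agent.Y769.SP

open Filter Topology Metric Set

section Defs

variable {E : Type*} [NormedAddCommGroup E] [NormedSpace ℝ E]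

/-- A similarity: an isometry followed by a scaling `x ↦ c x` with `c > 0`. -/
def IsSimilarity (f : E → E) : Prop :=
  ∃ (g : E ≃ᵢ E) (c : ℝ), 0 < c ∧ ∀ x, f x = c • g x

/-- A class of admissible tiles: they are compact, and the class is closed under similarities. -/
structure IsTileClass (𝒞 : Set (Set E)) : Prop where
  compact : ∀ A ∈ 𝒞, IsCompact A
  sim : ∀ f : E → E, IsSimilarity f → ∀ A ∈ 𝒞, f '' A ∈ 𝒞

/-- A tiling with tiles in the class `𝒞`: a countable family of members of `𝒞` that cover the space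
and have pairwise disjoint interiors. -/
structure IsTiling (𝒞 : Set (Set E)) (T : Set (Set E)) : Prop where
  countable : T.Countable
  tile : ∀ A ∈ T, A ∈ 𝒞
  cover : ⋃₀ T = Set.univ
  disjoint : ∀ A ∈ T, ∀ B ∈ T, A ≠ B → Disjoint (interior A) (interior B)

/-- The set `𝒬` of prototiles admits `T`: `T` is a tiling each of whose tiles is congruent to a
member of `𝒬`. -/
def Admits (𝒞 𝒬 : Set (Set E)) (T : Set (Set E)) : Prop :=
  IsTiling 𝒞 T ∧ ∀ A ∈ T, ∃ P ∈ 𝒬, ∃ g : E ≃ᵢ E, A = g '' P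

/-- Equality of tilings: some similarity maps the first onto the second. -/
def Equal (T₁ T₂ : Set (Set E)) : Prop :=
  ∃ f : E → E, IsSimilarity f ∧ (fun A : Set E => f '' A) '' T₁ = T₂

/-- `T₁` is a `k`-composition of `T₂`: every tile of the tiling `T₁` is a union of exactly `k`
tiles of `T₂`. -/
def IsComposition (𝒞 : Set (Set E)) (k : ℕ) (T₁ T₂ : Set (Set E)) : Prop :=
  IsTiling 𝒞 T₁ ∧ ∀ A ∈ T₁, ∃ S : Finset (Set E),
    (S : Set (Set E)) ⊆ T₂ ∧ S.card = k ∧ A = ⋃₀ (S : Set (Set E))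

/-- `T` is a `k`-similarity tiling. -/
def IsKSimilarity (𝒞 : Set (Set E)) (k : ℕ) (T : Set (Set E)) : Prop :=
  2 ≤ k ∧ (∃ T₁, IsComposition 𝒞 k T₁ T ∧ Equal T T₁) ∧
    ∀ j : ℕ, 1 < j → j < k → ¬ ∃ T₁, IsComposition 𝒞 j T₁ T ∧ Equal T T₁

end Defs

variable {E : Type*} [NormedAddCommGroup E] [NormedSpace ℝ E]

/-! ### Abstract recurrence lemma -/

section Abstract

variable {X : Type*} [TopologicalSpace X] [CompactSpace X] [Nonempty X]

theorem exists_minimal (T : E → X → X) :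
    ∃ M : Set X, IsClosed M ∧ M.Nonempty ∧ (∀ a, ∀ x ∈ M, T a x ∈ M) ∧
      ∀ M' : Set X, IsClosed M' → M'.Nonempty → (∀ a, ∀ x ∈ M', T a x ∈ M') → M' ⊆ M → M' = M := by
  obtain ⟨M, hM⟩ := zorn_superset_nonempty
    {M : Set X | IsClosed M ∧ M.Nonempty ∧ (∀ a, ∀ x ∈ M, T a x ∈ M)} (by
      intro c hc hchain hne
      refine ⟨⋂₀ c, ⟨isClosed_sInter fun s hs => (hc hs).1, ?_, ?_⟩, fun s hs => sInter_subset_of_mem hs⟩
      · have : Nonempty c := hne.to_subtype
        have h := IsCompact.nonempty_iInter_of_directed_nonempty_isCompact_isClosed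
          (fun s : c => (s : Set X)) ?_ ?_ ?_ ?_
        · rwa [sInter_eq_iInter]
        · intro s t
          rcases hchain.total s.2 t.2 with h | h
          · exact ⟨s, subset_rfl, h⟩
          · exact ⟨t, h, subset_rfl⟩
        · exact fun s => (hc s.2).2.1
        · exact fun s => (hc s.2).1.isCompact
        · exact fun s => (hc s.2).1
      · intro a x hx s hs
        exact (hc hs).2.2 a x (hx s hs)) univ
      ⟨isClosed_univ, univ_nonempty, fun _ _ _ => mem_univ _⟩
  refine ⟨M, hM.2.prop.1, hM.2.prop.2.1, hM.2.prop.2.2, ?_⟩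
  intro M' h1 h2 h3 h4
  exact subset_antisymm h4 (hM.2.le_of_le ⟨h1, h2, h3⟩ h4)

theorem recurrence [Nontrivial E] [R1Space X] (T : E → X → X) (h0 : ∀ x, T 0 x = x)
    (hadd : ∀ a b x, T (a + b) x = T a (T b x)) (hcont : ∀ a, Continuous (T a))
    (Y : ℕ → ℕ → Set X) (hclosed : ∀ k n, IsClosed (Y k n)) (hcover : ∀ x, ∃ k n, x ∈ Y k n) :
    ∃ k n x, (∀ j < k, ∀ m, x ∉ Y j m) ∧ ∀ R : ℝ, ∃ a : E, R < ‖a‖ ∧ T a x ∈ Y k n := by
  obtain ⟨M, hMc, hMne, hMinv, hMmin⟩ := exists_minimal T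
  have hMcpt : CompactSpace M := isCompact_iff_compactSpace.mp hMc.isCompact
  have hMne' : Nonempty M := hMne.to_subtype
  -- some Y k n has interior in M
  have hex : ∃ k n, (interior {x : M | (x : X) ∈ Y k n}).Nonempty := by
    have h := nonempty_interior_of_iUnion_of_closed (X := M)
      (f := fun p : ℕ × ℕ => {x : M | (x : X) ∈ Y p.1 p.2})
      (fun p => (hclosed p.1 p.2).preimage continuous_subtype_val)
      (by
        ext x
        simp only [mem_iUnion, mem_ofPred_eq, mem_univ, iff_true]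
        obtain ⟨k, n, h⟩ := hcover x
        exact ⟨(k, n), h⟩)
    obtain ⟨p, hp⟩ := h
    exact ⟨p.1, p.2, hp⟩
  classical
  let k := Nat.find hex
  obtain ⟨n, hn⟩ := Nat.find_spec hex
  have hlt : ∀ j < k, ∀ m, interior {x : M | (x : X) ∈ Y j m} = ∅ := by
    intro j hj m
    have := Nat.find_min hex hj
    push Not at this
    exact this m
  -- a point of M outside all Y j m, j < k
  have hdense : Dense (⋂ p : {j // j < k} × ℕ, {x : M | (x : X) ∈ Y p.1 p.2}ᶜ) := by
    apply dense_iInter_of_isOpen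
    · intro p
      exact ((hclosed p.1 p.2).preimage continuous_subtype_val).isOpen_compl
    · intro p
      rw [← interior_eq_empty_iff_dense_compl]
      exact hlt p.1 p.1.2 p.2
  obtain ⟨x, hx⟩ := hdense.nonempty
  refine ⟨k, n, x, ?_, ?_⟩
  · intro j hj m hxm
    have := mem_iInter.mp hx (⟨j, hj⟩, m)
    exact this hxm
  · intro R
    -- limit points of the orbit at infinity
    let F : ℕ → Set X := fun r => closure {y | ∃ a : E, (r : ℝ) ≤ ‖a‖ ∧ y = T a x}
    have hFne : ∀ r, (F r).Nonempty := by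
      intro r
      obtain ⟨a, ha⟩ := NormedSpace.exists_lt_norm ℝ E (r : ℝ)
      exact ⟨T a x, subset_closure ⟨a, ha.le, rfl⟩⟩
    have hFM : ∀ r, F r ⊆ M := by
      intro r
      apply closure_minimal _ hMc
      rintro y ⟨a, _, rfl⟩
      exact hMinv a x x.2
    have hFinter : (⋂ r, F r).Nonempty := by
      apply IsCompact.nonempty_iInter_of_sequence_nonempty_isCompact_isClosed
      · intro r
        apply closure_mono
        rintro y ⟨a, ha, rfl⟩
        refine ⟨a, ?_, rfl⟩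
        push_cast at ha
        linarith
      · exact hFne
      · exact isClosed_closure.isCompact
      · exact fun r => isClosed_closure
    obtain ⟨y, hy⟩ := hFinter
    have hyM : y ∈ M := hFM 0 (mem_iInter.mp hy 0)
    obtain ⟨U, hU, hUeq⟩ := isOpen_induced_iff.mp
      (isOpen_interior : IsOpen (interior {x : M | (x : X) ∈ Y k n}))
    have hUY : ∀ z ∈ M, z ∈ U → z ∈ Y k n := by
      intro z hz hzU
      have : (⟨z, hz⟩ : M) ∈ interior {x : M | (x : X) ∈ Y k n} := by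
        rw [← hUeq]; exact hzU
      exact interior_subset (s := {x : M | (x : X) ∈ Y k n}) this
    -- the orbit of y meets U
    have horb : ∃ b, T b y ∈ U := by
      by_contra hcon
      push Not at hcon
      have hM' : closure {z | ∃ b, z = T b y} = M := by
        apply hMmin _ isClosed_closure
        · exact ⟨y, subset_closure ⟨0, (h0 y).symm⟩⟩
        · intro a z hz
          have : T a '' closure {z | ∃ b, z = T b y} ⊆ closure (T a '' {z | ∃ b, z = T b y}) :=
            image_closure_subset_closure_image (hcont a)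
          refine closure_mono ?_ (this ⟨z, hz, rfl⟩)
          rintro _ ⟨_, ⟨b, rfl⟩, rfl⟩
          exact ⟨a + b, (hadd a b y).symm⟩
        · apply closure_minimal _ hMc
          rintro z ⟨b, rfl⟩
          exact hMinv b y hyM
      have hsub : M ⊆ Uᶜ := by
        rw [← hM']
        apply closure_minimal _ hU.isClosed_compl
        rintro z ⟨b, rfl⟩
        exact hcon b
      obtain ⟨z, hz⟩ := hn
      have hz' : (z : X) ∈ U := by
        rw [← hUeq] at hz; exact hz
      exact hsub z.2 hz'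
    obtain ⟨b, hb⟩ := horb
    have hopen : IsOpen (T b ⁻¹' U) := hU.preimage (hcont b)
    obtain ⟨r, hr⟩ := exists_nat_gt (R + ‖b‖)
    obtain ⟨z, hz1, a, ha, rfl⟩ := mem_closure_iff.mp (mem_iInter.mp hy r) _ hopen hb
    refine ⟨b + a, ?_, ?_⟩
    · have : ‖a‖ ≤ ‖b + a‖ + ‖b‖ := by
        calc ‖a‖ = ‖(b + a) - b‖ := by congr 1; abel
          _ ≤ _ := norm_sub_le _ _
      linarith
    · rw [hadd]
      exact hUY _ (hMinv b _ (hMinv a x x.2)) hz1

end Abstract


variable [FiniteDimensional ℝ E]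


/-- A placement: `(a, L)` stands for `x ↦ a + L x`. -/
abbrev G (E : Type*) [NormedAddCommGroup E] [NormedSpace ℝ E] : Type _ := E × (E →L[ℝ] E)

/-- The map of a placement. -/
def act (z : G E) (x : E) : E := z.1 + z.2 x

/-- The linear part is isometric. -/
def Iso (z : G E) : Prop := ∀ x, ‖z.2 x‖ = ‖x‖

theorem act_dist {z : G E} (hz : Iso z) (x y : E) : dist (act z x) (act z y) = dist x y := by
  unfold act
  rw [dist_add_left, dist_eq_norm, ← map_sub, hz, dist_eq_norm]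

theorem exists_equiv {z : G E} (hz : Iso z) : ∃ g : E ≃ᵢ E, ∀ x, g x = act z x := by
  let L : E →ₗᵢ[ℝ] E := ⟨z.2.toLinearMap, hz⟩
  let L' : E ≃ₗᵢ[ℝ] E := L.toLinearIsometryEquiv rfl
  refine ⟨L'.toIsometryEquiv.trans (IsometryEquiv.addLeft z.1), ?_⟩
  intro x
  rfl

theorem exists_placement (g : E ≃ᵢ E) : ∃ z : G E, Iso z ∧ ∀ x, g x = act z x := by
  let h := g.toRealAffineIsometryEquiv
  refine ⟨(g 0, h.linearIsometryEquiv.toContinuousLinearEquiv.toContinuousLinearMap), ?_, ?_⟩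
  · intro x
    exact h.linearIsometryEquiv.norm_map x
  · intro x
    have := h.map_vadd 0 x
    simp only [vadd_eq_add, add_zero] at this
    unfold act
    rw [add_comm]
    exact this

theorem continuous_act : Continuous fun p : G E × E => act p.1 p.2 := by
  unfold act
  fun_prop

theorem tendsto_act {ι : Type*} {F : Filter ι} {z : ι → G E} {x : ι → E} {z₀ : G E} {x₀ : E}
    (hz : Tendsto z F (𝓝 z₀)) (hx : Tendsto x F (𝓝 x₀)) :
    Tendsto (fun i => act (z i) (x i)) F (𝓝 (act z₀ x₀)) :=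
  (continuous_act.tendsto (z₀, x₀)).comp (hz.prodMk_nhds hx)

theorem iso_closed : IsClosed {z : G E | Iso z} := by
  unfold Iso
  rw [Set.ofPred_forall]
  apply isClosed_iInter
  intro x
  exact isClosed_eq (by fun_prop) continuous_const

theorem norm_le_of_mem {P : Set E} {D : ℝ} (hD : ∀ p ∈ P, ‖p‖ ≤ D) {z : G E} (hz : Iso z)
    {x : E} (hx : x ∈ act z '' P) : ‖z‖ ≤ ‖x‖ + D + 1 := by
  obtain ⟨p, hp, rfl⟩ := hx
  have hD0 : 0 ≤ D := (norm_nonneg p).trans (hD p hp)
  have h1 : ‖z.1‖ ≤ ‖act z p‖ + D := by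
    have : z.1 = act z p - z.2 p := by unfold act; abel
    calc ‖z.1‖ = ‖act z p - z.2 p‖ := by rw [← this]
      _ ≤ ‖act z p‖ + ‖z.2 p‖ := norm_sub_le _ _
      _ ≤ _ := by rw [hz]; gcongr; exact hD p hp
  have h2 : ‖z.2‖ ≤ 1 := by
    apply ContinuousLinearMap.opNorm_le_bound _ zero_le_one
    intro x
    rw [hz, one_mul]
  rw [Prod.norm_def]
  apply max_le
  · linarith
  · have := norm_nonneg (act z p)
    linarith

theorem exists_limit {ι : Type*} (F : Ultrafilter ι) (z : ι → G E) (R : ℝ)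
    (h : ∀ᶠ i in F, ‖z i‖ ≤ R) : ∃ z₀, Tendsto z F (𝓝 z₀) := by
  have hc : IsCompact (closedBall (0 : G E) R) := isCompact_closedBall 0 R
  obtain ⟨z₀, _, h₀⟩ := hc.ultrafilter_le_nhds (F.map z) (by
    rw [le_principal_iff]
    simp only [Ultrafilter.mem_coe, Ultrafilter.mem_map]
    filter_upwards [h] with i hi
    simpa using hi)
  exact ⟨z₀, h₀⟩

theorem exists_limit' {ι : Type*} (F : Ultrafilter ι) {P : Set E} (hP : IsCompact P)
    (x : ι → E) (h : ∀ᶠ i in F, x i ∈ P) : ∃ x₀ ∈ P, Tendsto x F (𝓝 x₀) := by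
  obtain ⟨z₀, hz, h₀⟩ := hP.ultrafilter_le_nhds (F.map x) (by
    rw [le_principal_iff]
    exact h)
  exact ⟨z₀, hz, h₀⟩
/-! ### Expansions -/

/-- The expansion `x ↦ b + c M x`. -/
def expand (d : G E × ℝ) (x : E) : E := d.1.1 + d.2 • d.1.2 x

theorem continuous_expand : Continuous fun p : (G E × ℝ) × E => expand p.1 p.2 := by
  unfold expand
  fun_prop

theorem tendsto_expand {ι : Type*} {F : Filter ι} {d : ι → G E × ℝ} {x : ι → E} {d₀ : G E × ℝ}
    {x₀ : E} (hd : Tendsto d F (𝓝 d₀)) (hx : Tendsto x F (𝓝 x₀)) :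
    Tendsto (fun i => expand (d i) (x i)) F (𝓝 (expand d₀ x₀)) :=
  (continuous_expand.tendsto (d₀, x₀)).comp (hd.prodMk_nhds hx)

theorem norm_act_le {z : G E} (hz : Iso z) (x : E) : ‖act z x‖ ≤ ‖z‖ + ‖x‖ := by
  unfold act
  calc ‖z.1 + z.2 x‖ ≤ ‖z.1‖ + ‖z.2 x‖ := norm_add_le _ _
    _ ≤ _ := by rw [hz]; gcongr; exact norm_fst_le z

/-! ### Similarities as permutations -/

/-- `f` multiplies distances by `c`. -/
def Sim (c : ℝ) (f : Equiv.Perm E) : Prop := 0 < c ∧ ∀ x y, dist (f x) (f y) = c * dist x y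

theorem Sim.mul {c c' : ℝ} {f f' : Equiv.Perm E} (h : Sim c f) (h' : Sim c' f') :
    Sim (c * c') (f * f') := by
  refine ⟨mul_pos h.1 h'.1, fun x y => ?_⟩
  rw [Equiv.Perm.mul_apply, Equiv.Perm.mul_apply, h.2, h'.2, mul_assoc]

theorem Sim.inv {c : ℝ} {f : Equiv.Perm E} (h : Sim c f) : Sim c⁻¹ f⁻¹ := by
  refine ⟨inv_pos.mpr h.1, fun x y => ?_⟩
  have := h.2 (f⁻¹ x) (f⁻¹ y)
  have e : ∀ x, f (f⁻¹ x) = x := fun x => f.apply_symm_apply x
  rw [e, e] at this
  rw [this, ← mul_assoc, inv_mul_cancel₀ h.1.ne', one_mul]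

theorem Sim.isSimilarity {c : ℝ} {f : Equiv.Perm E} (h : Sim c f) : IsSimilarity f := by
  have hc := h.1
  let e : E ≃ E := f.trans (Equiv.mk (fun x => c⁻¹ • x) (fun x => c • x)
    (fun x => by simp [smul_smul, hc.ne']) (fun x => by simp [smul_smul, hc.ne']))
  have he : ∀ x, e x = c⁻¹ • f x := fun x => rfl
  have hiso : Isometry e := by
    refine Isometry.of_dist_eq fun x y => ?_
    rw [he, he, dist_smul₀, h.2, Real.norm_eq_abs, abs_of_pos (inv_pos.mpr hc), ← mul_assoc,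
      inv_mul_cancel₀ hc.ne', one_mul]
  refine ⟨⟨e, hiso⟩, c, hc, fun x => ?_⟩
  show f x = c • e x
  rw [he, smul_smul, mul_inv_cancel₀ hc.ne', one_smul]

theorem exists_data {f : E → E} (h : IsSimilarity f) :
    ∃ d : G E × ℝ, Iso d.1 ∧ 0 < d.2 ∧ f = expand d := by
  obtain ⟨g, c, hc, hf⟩ := h
  obtain ⟨z, hz, hg⟩ := exists_placement g
  refine ⟨((c • z.1, z.2), c), hz, hc, ?_⟩
  ext1 x
  rw [hf, hg]
  unfold act expand
  rw [smul_add]

theorem exists_perm {d : G E × ℝ} (hd : Iso d.1) (hc : 0 < d.2) :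
    ∃ f : Equiv.Perm E, (∀ x, f x = expand d x) ∧ Sim d.2 f := by
  obtain ⟨g, hg⟩ := exists_equiv (z := (d.2⁻¹ • d.1.1, d.1.2)) hd
  let f : Equiv.Perm E := g.toEquiv.trans (Equiv.mk (fun x => d.2 • x) (fun x => d.2⁻¹ • x)
    (fun x => by simp [smul_smul, hc.ne']) (fun x => by simp [smul_smul, hc.ne']))
  have hf : ∀ x, f x = d.2 • g x := fun x => rfl
  refine ⟨f, fun x => ?_, hc, fun x y => ?_⟩
  · rw [hf, hg]
    unfold act expand
    rw [smul_add, smul_smul, mul_inv_cancel₀ hc.ne', one_smul]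
  · rw [hf, hf, dist_smul₀, g.dist_eq, Real.norm_eq_abs, abs_of_pos hc]

theorem exists_perm' {f : E → E} (h : IsSimilarity f) :
    ∃ (c : ℝ) (e : Equiv.Perm E), f = e ∧ Sim c e := by
  obtain ⟨d, h1, h2, rfl⟩ := exists_data h
  obtain ⟨e, he, hs⟩ := exists_perm h1 h2
  exact ⟨d.2, e, by ext1 x; exact (he x).symm, hs⟩

/-- The induced map on families of sets. -/
def img (f : E → E) (T : Set (Set E)) : Set (Set E) := (fun A => f '' A) '' T

theorem img_img (f g : E → E) (T : Set (Set E)) :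
    img f (img g T) = img (f ∘ g) T := by
  unfold img
  rw [image_image]
  simp only [image_image]
  rfl

theorem img_mul (f g : Equiv.Perm E) (T : Set (Set E)) :
    img (f * g : Equiv.Perm E) T = img f (img g T) := by
  rw [img_img]
  rfl

theorem img_one (T : Set (Set E)) : img (1 : Equiv.Perm E) T = T := by
  unfold img
  simp

/-- A homeomorphism from a similarity. -/
theorem exists_homeo {c : ℝ} {f : Equiv.Perm E} (h : Sim c f) :
    ∃ e : E ≃ₜ E, ∀ x, e x = f x := by
  have h1 : Continuous f := by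
    have : LipschitzWith ⟨c, h.1.le⟩ f := LipschitzWith.of_dist_le_mul fun x y => (h.2 x y).le
    exact this.continuous
  have h2 : Continuous f.symm := by
    have : LipschitzWith ⟨c⁻¹, h.inv.1.le⟩ (f⁻¹ : Equiv.Perm E) :=
      LipschitzWith.of_dist_le_mul fun x y => (h.inv.2 x y).le
    exact this.continuous
  exact ⟨⟨f, h1, h2⟩, fun x => rfl⟩

theorem image_interior_sim {c : ℝ} {f : Equiv.Perm E} (h : Sim c f) (A : Set E) :
    f '' interior A = interior (f '' A) := by
  obtain ⟨e, he⟩ := exists_homeo h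
  have : (f : E → E) = e := by ext1 x; exact (he x).symm
  rw [this]
  exact e.image_interior A

theorem tile_image {𝒞 : Set (Set E)} (h𝒞 : IsTileClass 𝒞) {c : ℝ} {f : Equiv.Perm E}
    (h : Sim c f) {A : Set E} (hA : A ∈ 𝒞) : f '' A ∈ 𝒞 := h𝒞.sim f h.isSimilarity A hA

theorem isTiling_img {𝒞 : Set (Set E)} (h𝒞 : IsTileClass 𝒞) {c : ℝ} {f : Equiv.Perm E} (h : Sim c f) {T : Set (Set E)}
    (hT : IsTiling 𝒞 T) : IsTiling 𝒞 (img f T) := by
  refine ⟨hT.countable.image _, ?_, ?_, ?_⟩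
  · rintro _ ⟨A, hA, rfl⟩
    exact tile_image h𝒞 h (hT.tile A hA)
  · rw [eq_univ_iff_forall]
    intro x
    have hx : f.symm x ∈ ⋃₀ T := by rw [hT.cover]; trivial
    obtain ⟨A, hA, hxA⟩ := hx
    exact ⟨f '' A, ⟨A, hA, rfl⟩, f.symm x, hxA, by simp⟩
  · rintro _ ⟨A, hA, rfl⟩ _ ⟨B, hB, rfl⟩ hne
    have hne' : A ≠ B := fun h => hne (by rw [h])
    show Disjoint (interior (f '' A)) (interior (f '' B))
    rw [← image_interior_sim h, ← image_interior_sim h]
    exact (disjoint_image_iff f.injective).mpr (hT.disjoint A hA B hB hne')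

theorem isComposition_img {𝒞 : Set (Set E)} (h𝒞 : IsTileClass 𝒞) {c : ℝ} {f : Equiv.Perm E} (h : Sim c f) {k : ℕ}
    {T₁ T₂ : Set (Set E)} (hT : IsComposition 𝒞 k T₁ T₂) :
    IsComposition 𝒞 k (img f T₁) (img f T₂) := by
  classical
  refine ⟨isTiling_img h𝒞 h hT.1, ?_⟩
  rintro _ ⟨A, hA, rfl⟩
  obtain ⟨S, hS1, hS2, hS3⟩ := hT.2 A hA
  have hinj : Function.Injective (fun A : Set E => f '' A) := f.injective.image_injective
  refine ⟨S.image (fun A => f '' A), ?_, ?_, ?_⟩
  · rw [Finset.coe_image]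
    exact image_mono hS1
  · rw [Finset.card_image_of_injective _ hinj, hS2]
  · show f '' A = _
    rw [Finset.coe_image, hS3, sUnion_image, sUnion_eq_biUnion, image_iUnion₂]

theorem equal_img {c : ℝ} {f : Equiv.Perm E} (h : Sim c f) (T : Set (Set E)) :
    Equal T (img f T) := ⟨f, h.isSimilarity, rfl⟩

/-! ### Monohedral tilings: rigidity of symmetries -/

theorem exists_perm_isom (g : E ≃ᵢ E) : Sim 1 g.toEquiv :=
  ⟨one_pos, fun x y => by rw [one_mul]; exact g.dist_eq x y⟩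


/-- no small subgroups for linear isometries -/
theorem linear_eq_one (L : E →L[ℝ] E) (h : ∀ m : ℕ, ‖L ^ m - 1‖ ≤ 1 / 2) : L = 1 := by
  have hbdd : BddAbove (range fun m : ℕ => ‖L ^ m - 1‖) := ⟨1 / 2, by rintro _ ⟨m, rfl⟩; exact h m⟩
  set δ := ⨆ m : ℕ, ‖L ^ m - 1‖ with hδ
  have h1 : ∀ m, ‖L ^ m - 1‖ ≤ δ := fun m => le_ciSup hbdd m
  have h0 : 0 ≤ δ := (norm_nonneg _).trans (h1 0)
  have h2 : ∀ m, ‖L ^ m - 1‖ ≤ 2 / 3 * δ := by
    intro m
    have e : (2 : ℝ) • (L ^ m - 1) = (L ^ (2 * m) - 1) - (L ^ m - 1) * (L ^ m - 1) := by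
      have e0 : (2 : ℝ) • (L ^ m - 1) = (L ^ m - 1) + (L ^ m - 1) := by
        ext1 x
        show (2 : ℝ) • ((L ^ m - 1) x) = (L ^ m - 1) x + (L ^ m - 1) x
        exact two_smul ℝ _
      rw [e0, two_mul, pow_add, sub_mul, mul_sub, mul_one, one_mul]
      abel
    have e2 : 2 * ‖L ^ m - 1‖ ≤ δ + 1 / 2 * ‖L ^ m - 1‖ := by
      calc 2 * ‖L ^ m - 1‖ = ‖(2 : ℝ) • (L ^ m - 1)‖ := by rw [norm_smul]; norm_num
        _ ≤ ‖L ^ (2 * m) - 1‖ + ‖(L ^ m - 1) * (L ^ m - 1)‖ := by rw [e]; exact norm_sub_le _ _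
        _ ≤ δ + 1 / 2 * ‖L ^ m - 1‖ := by
          gcongr
          · exact h1 _
          · exact (norm_mul_le _ _).trans (mul_le_mul_of_nonneg_right (h m) (norm_nonneg _))
    linarith
  have h3 : δ ≤ 2 / 3 * δ := ciSup_le h2
  have h4 : δ = 0 := by linarith
  have h5 := h1 1
  rw [h4, pow_one] at h5
  exact sub_eq_zero.mp (norm_le_zero_iff.mp h5)

end Pool.Agent.Y769.SP
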