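import Pool.Agent.Y769.SP.Family

/-!
# Expansions of placement sets
-/

set_option autoImplicit false
set_option linter.unusedSectionVars false

namespace Pool.Agent.Y769.SP

open Filter Topology Metric Set

variable {E : Type*} [NormedAddCommGroup E] [NormedSpace ℝ E] [FiniteDimensional ℝ E]
  {P : ℕ → Set E} {m : ℕ}

/-- `f` maps every tile of `C` onto a union of exactly `k` tiles of `C`. -/
def Comp (P : ℕ → Set E) (k : ℕ) (f : E → E) (C : Set (H E)) : Prop :=
  ∀ z ∈ C, ∃ g : Fin k → H E, (∀ i, g i ∈ C) ∧ (∀ i j, i ≠ j → tile P (g i) ≠ tile P (g j)) ∧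
    f '' tile P z = ⋃ i, tile P (g i)

/-- Good expansion data. -/
def Good (P : ℕ → Set E) (q : ℝ) (k n : ℕ) (C : Set (H E)) (d : G E × ℝ) : Prop :=
  Iso d.1 ∧ q ≤ d.2 ∧ d.2 ≤ n ∧ ‖d.1‖ ≤ n ∧ Comp P k (expand d) C

/-- Placement sets with good expansions of bounded size. -/
def Yset (P : ℕ → Set E) (m : ℕ) (q : ℝ) (k n : ℕ) : Set (X P m) := {C | ∃ d, Good P q k n C.1 d}

theorem isClosed_Yset (hP : ∀ i, IsCompact (P i)) (hne : ∀ i < m, (interior (P i)).Nonempty)
    {q : ℝ} (hq0 : 0 ≤ q) (k n : ℕ) : IsClosed (Yset P m q k n) := by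
  classical
  obtain ⟨D, hD⟩ := exists_bound hP m
  have hp0 : ∀ i, ∃ p : E, i < m → p ∈ interior (P i) := by
    intro i
    by_cases hi : i < m
    · obtain ⟨p, hp⟩ := hne i hi
      exact ⟨p, fun _ => hp⟩
    · exact ⟨0, fun h => absurd h hi⟩
  choose p₀ hp₀ using hp0
  rw [isClosed_iff_ultrafilter]
  intro C₀ F hF hY
  have hY' : ∀ᶠ C in F, C ∈ Yset P m q k n := hY
  -- choose expansions
  have h1 : ∀ C : X P m, ∃ d : G E × ℝ, C ∈ Yset P m q k n → Good P q k n C.1 d := by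
    intro C
    by_cases h : C ∈ Yset P m q k n
    · obtain ⟨d, hd⟩ := h
      exact ⟨d, fun _ => hd⟩
    · exact ⟨0, fun h' => absurd h' h⟩
  choose d hd using h1
  obtain ⟨e₀, he₀⟩ := exists_limit F (fun C => (d C).1) n (by
    filter_upwards [hY'] with C hC using (hd C hC).2.2.2.1)
  obtain ⟨c₀, hc₀mem, hc₀⟩ := (isCompact_Icc (a := q) (b := n)).ultrafilter_le_nhds
    (F.map (fun C => (d C).2)) (by
      rw [le_principal_iff]
      show ∀ᶠ C in F, (d C).2 ∈ Icc q n
      filter_upwards [hY'] with C hC using ⟨(hd C hC).2.1, (hd C hC).2.2.1⟩)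
  have hc₀' : Tendsto (fun C => (d C).2) F (𝓝 c₀) := hc₀
  have hdlim : Tendsto d F (𝓝 (e₀, c₀)) := he₀.prodMk_nhds hc₀'
  have hiso₀ : Iso e₀ := iso_closed.mem_of_tendsto he₀ (by
    filter_upwards [hY'] with C hC using (hd C hC).1)
  refine ⟨(e₀, c₀), hiso₀, hc₀mem.1, hc₀mem.2, ?_, ?_⟩
  · exact le_of_tendsto he₀.norm (by
      filter_upwards [hY'] with C hC using (hd C hC).2.2.2.1)
  intro z hz
  obtain ⟨w, hw, hwz⟩ := exists_seq hF hz
  have hwidx := idx_eventually hwz
  have h2 : ∀ C : X P m, ∃ g : Fin k → H E, C ∈ Yset P m q k n → (∀ i, g i ∈ C.1) ∧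
      (∀ i j, i ≠ j → tile P (g i) ≠ tile P (g j)) ∧
      expand (d C) '' tile P (w C) = ⋃ i, tile P (g i) := by
    intro C
    by_cases h : C ∈ Yset P m q k n
    · obtain ⟨g, hg⟩ := (hd C h).2.2.2.2 (w C) (hw C)
      exact ⟨g, fun _ => hg⟩
    · exact ⟨fun _ => 0, fun h' => absurd h' h⟩
  choose g hg using h2
  have hwiso : ∀ C, Iso (w C).1 := fun C => C.2.iso _ (hw C)
  have hziso : Iso z.1 := C₀.2.iso z hz
  have hbound : ∀ i, ∃ g₀, Tendsto (fun C => g C i) F (𝓝 g₀) := by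
    intro i
    apply exists_limitH F _ (n + n * ((‖z.1‖ + 1) + D) + D + 1) m
    have hev : ∀ᶠ C in F, ‖(w C).1‖ ≤ ‖z.1‖ + 1 := by
      have := (fst_tendsto hwz).norm.eventually
        (gt_mem_nhds (show ‖z.1‖ < ‖z.1‖ + 1 by linarith))
      exact this.mono fun C hC => le_of_lt hC
    filter_upwards [hY', hev] with C hC hCw
    obtain ⟨hg1, hg2, hg3⟩ := hg C hC
    have hiso : Iso (g C i).1 := C.2.iso _ (hg1 i)
    have hidx : (g C i).2 < m := C.2.idx _ (hg1 i)
    have hx : act (g C i).1 (p₀ (g C i).2) ∈ tile P (g C i) :=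
      ⟨_, interior_subset (hp₀ _ hidx), rfl⟩
    have hx' : act (g C i).1 (p₀ (g C i).2) ∈ expand (d C) '' tile P (w C) := by
      rw [hg3]; exact mem_iUnion.mpr ⟨i, hx⟩
    obtain ⟨_, ⟨r, hr, rfl⟩, hre⟩ := hx'
    have hb := norm_le_of_mem (hD _ hidx) hiso hx
    refine ⟨?_, hidx⟩
    have h3 : ‖act (g C i).1 (p₀ (g C i).2)‖ ≤ n + n * ((‖z.1‖ + 1) + D) := by
      rw [← hre]
      unfold expand
      have e6 : (0 : ℝ) ≤ (d C).2 := hq0.trans (hd C hC).2.1
      have e1 : ‖(d C).1.1‖ ≤ n := (norm_fst_le _).trans (hd C hC).2.2.2.1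
      have e2 : ‖(d C).2 • (d C).1.2 (act (w C).1 r)‖ ≤ n * ((‖z.1‖ + 1) + D) := by
        rw [norm_smul, (hd C hC).1, Real.norm_eq_abs, abs_of_nonneg e6]
        have e3 := norm_act_le (hwiso C) r
        have e4 := hD _ (C.2.idx _ (hw C)) r hr
        have e5 := (hd C hC).2.2.1
        apply mul_le_mul e5 _ (norm_nonneg _) (by positivity)
        linarith
      exact (norm_add_le _ _).trans (add_le_add e1 e2)
    linarith
  choose g₀ hg₀ using hbound
  have hgmem : ∀ i, g₀ i ∈ C₀.1 := by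
    intro i
    refine mem_limit_iff hF (w := fun C => g C i) ?_ (hg₀ i)
    filter_upwards [hY'] with C hC using (hg C hC).1 i
  refine ⟨g₀, hgmem, ?_, ?_⟩
  · intro i j hij heq
    have hi : Iso (g₀ i).1 := C₀.2.iso _ (hgmem i)
    have hj : Iso (g₀ j).1 := C₀.2.iso _ (hgmem j)
    have hy : act (g₀ i).1 (p₀ (g₀ i).2) ∈ interior (tile P (g₀ i)) := by
      rw [interior_tile P hi]; exact ⟨_, hp₀ _ (C₀.2.idx _ (hgmem i)), rfl⟩
    have hisoi : ∀ i, ∀ᶠ C in F, Iso (g C i).1 := by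
      intro i
      filter_upwards [hY'] with C hC using C.2.iso _ ((hg C hC).1 i)
    have e1 := eventually_mem_interior (hg₀ i) (hisoi i) hi
      (tendsto_const_nhds (x := act (g₀ i).1 (p₀ (g₀ i).2))) hy
    have e2 := eventually_mem_interior (hg₀ j) (hisoi j) hj
      (tendsto_const_nhds (x := act (g₀ i).1 (p₀ (g₀ i).2))) (heq ▸ hy)
    obtain ⟨C, hC, hC1, hC2⟩ := (hY'.and (e1.and e2)).exists
    have := C.2.disj _ ((hg C hC).1 i) _ ((hg C hC).1 j) ((hg C hC).2.1 i j hij)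
    exact (Set.disjoint_left.mp this) hC1 hC2
  · apply subset_antisymm
    · rintro _ ⟨_, ⟨r, hr, rfl⟩, rfl⟩
      -- the image point lies in one of the tiles
      have e1 : ∀ᶠ C in F, ∃ i, ∃ p ∈ P (g C i).2,
          act (g C i).1 p = expand (d C) (act (w C).1 r) := by
        filter_upwards [hY', hwidx] with C hC hCi
        have : expand (d C) (act (w C).1 r) ∈ ⋃ i, tile P (g C i) := by
          rw [← (hg C hC).2.2]
          exact ⟨_, ⟨r, by rw [hCi]; exact hr, rfl⟩, rfl⟩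
        obtain ⟨i, p, hp, hpe⟩ := mem_iUnion.mp this
        exact ⟨i, p, hp, hpe⟩
      obtain ⟨i, hi⟩ := Ultrafilter.eventually_exists_iff.mp e1
      have h3 : ∀ C, ∃ p, (∃ p ∈ P (g C i).2, act (g C i).1 p = expand (d C) (act (w C).1 r)) →
          p ∈ P (g C i).2 ∧ act (g C i).1 p = expand (d C) (act (w C).1 r) := by
        intro C
        by_cases h : ∃ p ∈ P (g C i).2, act (g C i).1 p = expand (d C) (act (w C).1 r)
        · obtain ⟨p, hp⟩ := h
          exact ⟨p, fun _ => hp⟩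
        · exact ⟨0, fun h' => absurd h' h⟩
      choose p hp using h3
      obtain ⟨p₁, hp₁, hlim⟩ := exists_limit' F (hP (g₀ i).2) p (by
        filter_upwards [hi, idx_eventually (hg₀ i)] with C hC hCi
        rw [← hCi]
        exact (hp C hC).1)
      refine mem_iUnion.mpr ⟨i, p₁, hp₁, ?_⟩
      have e2 := tendsto_act (fst_tendsto (hg₀ i)) hlim
      have e3 := tendsto_expand hdlim (tendsto_act (fst_tendsto hwz) (tendsto_const_nhds (x := r)))
      refine tendsto_nhds_unique (e2.congr' ?_) e3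
      filter_upwards [hi] with C hC using (hp C hC).2
    · apply iUnion_subset
      rintro i _ ⟨p, hp, rfl⟩
      have e1 : ∀ᶠ C in F, ∃ r ∈ P z.2, expand (d C) (act (w C).1 r) = act (g C i).1 p := by
        filter_upwards [hY', hwidx, idx_eventually (hg₀ i)] with C hC hCi hCj
        have : act (g C i).1 p ∈ expand (d C) '' tile P (w C) := by
          rw [(hg C hC).2.2]
          exact mem_iUnion.mpr ⟨i, p, by rw [hCj]; exact hp, rfl⟩
        obtain ⟨_, ⟨r, hr, rfl⟩, hre⟩ := this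
        exact ⟨r, by rw [← hCi]; exact hr, hre⟩
      have h3 : ∀ C, ∃ r, (∃ r ∈ P z.2, expand (d C) (act (w C).1 r) = act (g C i).1 p) →
          r ∈ P z.2 ∧ expand (d C) (act (w C).1 r) = act (g C i).1 p := by
        intro C
        by_cases h : ∃ r ∈ P z.2, expand (d C) (act (w C).1 r) = act (g C i).1 p
        · obtain ⟨r, hr⟩ := h
          exact ⟨r, fun _ => hr⟩
        · exact ⟨0, fun h' => absurd h' h⟩
      choose r hr using h3
      obtain ⟨r₁, hr₁, hlim⟩ := exists_limit' F (hP z.2) r (by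
        filter_upwards [e1] with C hC using (hr C hC).1)
      refine ⟨act z.1 r₁, ⟨r₁, hr₁, rfl⟩, ?_⟩
      have e2 := tendsto_act (fst_tendsto (hg₀ i)) (tendsto_const_nhds (x := p))
      have e3 := tendsto_expand hdlim (tendsto_act (fst_tendsto hwz) hlim)
      refine tendsto_nhds_unique (e3.congr' ?_) e2
      filter_upwards [e1] with C hC using (hr C hC).2

theorem comp_shift {C : Set (H E)} {k : ℕ} {f : E → E} {a : E}
    (h : Comp P k f (shift a C)) : Comp P k (fun x => f (x + a) - a) C := by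
  intro z hz
  obtain ⟨g, h1, h2, h3⟩ := h (sh a z) ⟨z, hz, rfl⟩
  choose w hw hwg using h1
  have hwg' : ∀ i, g i = sh a (w i) := fun i => (hwg i).symm
  refine ⟨w, hw, ?_, ?_⟩
  · intro i j hij heq
    apply h2 i j hij
    rw [hwg', hwg', tile_add, tile_add, heq]
  · have e1 : (fun x => f (x + a) - a) '' tile P z =
        (fun x => x - a) '' (f '' tile P (sh a z)) := by
      rw [tile_add, image_image, image_image]
    rw [e1, h3, image_iUnion]
    congr 1
    ext1 i
    rw [hwg', tile_add, image_image]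
    simp

end Pool.Agent.Y769.SP
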