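import Pool.Agent.Y769.SP.Base

/-!
# Placements of finitely many prototiles
-/

set_option autoImplicit false
set_option linter.unusedSectionVars false

namespace Pool.Agent.Y769.SP

open Filter Topology Metric Set

variable {E : Type*} [NormedAddCommGroup E] [NormedSpace ℝ E] [FiniteDimensional ℝ E]

/-- A placement of a prototile: a placement and the index of the prototile. -/
abbrev H (E : Type*) [NormedAddCommGroup E] [NormedSpace ℝ E] : Type _ := G E × ℕ

/-- The tile of a placement. -/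
def tile (P : ℕ → Set E) (z : H E) : Set E := act z.1 '' P z.2

theorem interior_tile (P : ℕ → Set E) {z : H E} (hz : Iso z.1) :
    interior (tile P z) = act z.1 '' interior (P z.2) := by
  obtain ⟨g, hg⟩ := exists_equiv hz
  have h : act z.1 = g.toHomeomorph := by
    ext1 x; exact (hg x).symm
  unfold tile
  rw [h]
  exact (g.toHomeomorph.image_interior (P z.2)).symm

theorem exists_limitH {ι : Type*} (F : Ultrafilter ι) (z : ι → H E) (R : ℝ) (m : ℕ)
    (h : ∀ᶠ i in F, ‖(z i).1‖ ≤ R ∧ (z i).2 < m) : ∃ z₀, Tendsto z F (𝓝 z₀) := by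
  obtain ⟨a, ha⟩ := exists_limit F (fun i => (z i).1) R (h.mono fun i hi => hi.1)
  obtain ⟨j, _, hj⟩ := (Set.finite_lt_nat m).isCompact.ultrafilter_le_nhds
    (F.map (fun i => (z i).2)) (by
      rw [le_principal_iff]
      show ∀ᶠ i in F, (z i).2 < m
      exact h.mono fun i hi => hi.2)
  have hj' : Tendsto (fun i => (z i).2) F (𝓝 j) := hj
  exact ⟨(a, j), ha.prodMk_nhds hj'⟩

theorem idx_eventually {ι : Type*} {F : Filter ι} {z : ι → H E} {z₀ : H E}
    (hz : Tendsto z F (𝓝 z₀)) : ∀ᶠ i in F, (z i).2 = z₀.2 := by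
  have h1 : Tendsto (fun i => (z i).2) F (𝓝 z₀.2) := (continuous_snd.tendsto z₀).comp hz
  exact h1 ((isOpen_discrete {z₀.2}).mem_nhds rfl)

theorem fst_tendsto {ι : Type*} {F : Filter ι} {z : ι → H E} {z₀ : H E}
    (hz : Tendsto z F (𝓝 z₀)) : Tendsto (fun i => (z i).1) F (𝓝 z₀.1) :=
  (continuous_fst.tendsto z₀).comp hz

/-- Closed sets of placements that represent tilings by the prototiles `P i`, `i < m`. -/
structure IsPl (P : ℕ → Set E) (m : ℕ) (C : Set (H E)) : Prop where
  closed : IsClosed C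
  iso : ∀ z ∈ C, Iso z.1
  idx : ∀ z ∈ C, z.2 < m
  cover : ∀ x, ∃ z ∈ C, x ∈ tile P z
  disj : ∀ z ∈ C, ∀ w ∈ C, tile P z ≠ tile P w →
    Disjoint (interior (tile P z)) (interior (tile P w))

theorem IsPl.nonempty {P : ℕ → Set E} {m : ℕ} {C : Set (H E)} (h : IsPl P m C) :
    C.Nonempty := by
  obtain ⟨z, hz, _⟩ := h.cover 0
  exact ⟨z, hz⟩

/-- The space of closed placement sets. -/
def X (P : ℕ → Set E) (m : ℕ) := {C : Set (H E) // IsPl P m C}

variable {P : ℕ → Set E} {m : ℕ}

/-- The map to distance functions. -/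
noncomputable def emb (P : ℕ → Set E) (m : ℕ) (C : X P m) : H E → ℝ := fun z => infDist z C.1

noncomputable instance (P : ℕ → Set E) (m : ℕ) : TopologicalSpace (X P m) :=
  TopologicalSpace.induced (emb P m) inferInstance

theorem isInducing_emb (P : ℕ → Set E) (m : ℕ) : IsInducing (emb P m) := ⟨rfl⟩

instance (P : ℕ → Set E) (m : ℕ) : R1Space (X P m) := (isInducing_emb P m).r1Space

theorem tendsto_X {ι : Type*} {F : Filter ι} {C : ι → X P m} {C₀ : X P m} :
    Tendsto C F (𝓝 C₀) ↔ ∀ z, Tendsto (fun i => infDist z (C i).1) F (𝓝 (infDist z C₀.1)) := by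
  rw [(isInducing_emb P m).tendsto_nhds_iff, tendsto_pi_nhds]
  rfl

theorem le_nhds_X {F : Filter (X P m)} {C₀ : X P m} :
    F ≤ 𝓝 C₀ ↔ ∀ z, Tendsto (fun C : X P m => infDist z C.1) F (𝓝 (infDist z C₀.1)) :=
  tendsto_X (C := id)

/-- near points -/
theorem exists_near (z : H E) : ∃ w : X P m → H E, (∀ C, w C ∈ C.1) ∧
    ∀ C, dist z (w C) = infDist z C.1 := by
  have h : ∀ C : X P m, ∃ w ∈ C.1, infDist z C.1 = dist z w := fun C =>
    C.2.closed.exists_infDist_eq_dist C.2.nonempty z
  choose w hw1 hw2 using h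
  exact ⟨w, hw1, fun C => (hw2 C).symm⟩

theorem tendsto_near {z : H E} {F : Filter (X P m)} {w : X P m → H E}
    (hw : ∀ C, dist z (w C) = infDist z C.1)
    (h : Tendsto (fun C : X P m => infDist z C.1) F (𝓝 0)) : Tendsto w F (𝓝 z) := by
  rw [tendsto_iff_dist_tendsto_zero]
  simpa only [dist_comm _ z, hw] using h

/-- Points of the limit are the limits of points. -/
theorem mem_limit_iff {F : Ultrafilter (X P m)} {C₀ : X P m}
    (h : (F : Filter (X P m)) ≤ 𝓝 C₀) {w : X P m → H E} {z : H E} (hw : ∀ᶠ C in F, w C ∈ C.1)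
    (hz : Tendsto w F (𝓝 z)) : z ∈ C₀.1 := by
  have h1 := le_nhds_X.mp h z
  have h2 : Tendsto (fun C : X P m => infDist z C.1) F (𝓝 0) := by
    apply squeeze_zero' (g := fun C => dist z (w C))
    · exact Eventually.of_forall fun C => infDist_nonneg
    · filter_upwards [hw] with C hC using infDist_le_dist_of_mem hC
    · have := (tendsto_iff_dist_tendsto_zero.mp hz)
      simpa only [dist_comm _ z] using this
  have h3 : infDist z C₀.1 = 0 := tendsto_nhds_unique h1 h2
  exact (C₀.2.closed.mem_iff_infDist_zero C₀.2.nonempty).mpr h3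

theorem exists_seq {F : Ultrafilter (X P m)} {C₀ : X P m}
    (h : (F : Filter (X P m)) ≤ 𝓝 C₀) {z : H E} (hz : z ∈ C₀.1) :
    ∃ w : X P m → H E, (∀ C, w C ∈ C.1) ∧ Tendsto w F (𝓝 z) := by
  obtain ⟨w, hw1, hw2⟩ := exists_near (P := P) (m := m) z
  refine ⟨w, hw1, tendsto_near hw2 ?_⟩
  have := le_nhds_X.mp h z
  rwa [infDist_zero_of_mem hz] at this

/-- If two placements converge, and they have the same tile, so do the limits. -/
theorem tile_subset_of_tendsto {ι : Type*} {F : Ultrafilter ι} (hP : ∀ i, IsCompact (P i))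
    {z w : ι → H E} {z₀ w₀ : H E} (hz : Tendsto z F (𝓝 z₀)) (hw : Tendsto w F (𝓝 w₀))
    (h : ∀ᶠ i in F, tile P (z i) ⊆ tile P (w i)) : tile P z₀ ⊆ tile P w₀ := by
  rintro _ ⟨p, hp, rfl⟩
  have h1 : ∀ᶠ i in F, ∃ q ∈ P w₀.2, act (w i).1 q = act (z i).1 p := by
    filter_upwards [h, idx_eventually hz, idx_eventually hw] with i hi hiz hiw
    obtain ⟨q, hq, hqe⟩ := hi ⟨p, by rw [hiz]; exact hp, rfl⟩
    exact ⟨q, by rw [← hiw]; exact hq, hqe⟩
  have h2 : ∀ i, ∃ q : E, (∃ q ∈ P w₀.2, act (w i).1 q = act (z i).1 p) →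
      q ∈ P w₀.2 ∧ act (w i).1 q = act (z i).1 p := by
    intro i
    by_cases hi : ∃ q ∈ P w₀.2, act (w i).1 q = act (z i).1 p
    · obtain ⟨q, hq⟩ := hi
      exact ⟨q, fun _ => hq⟩
    · exact ⟨0, fun h => absurd h hi⟩
  choose q hq using h2
  obtain ⟨q₀, hq₀, hlim⟩ := exists_limit' F (hP w₀.2) q (by
    filter_upwards [h1] with i hi using (hq i hi).1)
  refine ⟨q₀, hq₀, ?_⟩
  have e1 := tendsto_act (fst_tendsto hw) hlim
  have e2 := tendsto_act (fst_tendsto hz) (tendsto_const_nhds (x := p))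
  refine tendsto_nhds_unique (e1.congr' ?_) e2
  filter_upwards [h1] with i hi using (hq i hi).2

theorem tile_eq_of_tendsto {ι : Type*} {F : Ultrafilter ι} (hP : ∀ i, IsCompact (P i))
    {z w : ι → H E} {z₀ w₀ : H E} (hz : Tendsto z F (𝓝 z₀)) (hw : Tendsto w F (𝓝 w₀))
    (h : ∀ᶠ i in F, tile P (z i) = tile P (w i)) : tile P z₀ = tile P w₀ :=
  subset_antisymm
    (tile_subset_of_tendsto hP hz hw (h.mono fun _ hi => hi.subset))
    (tile_subset_of_tendsto hP hw hz (h.mono fun _ hi => hi.symm.subset))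

/-- An interior point of the limit tile is eventually interior. -/
theorem eventually_mem_interior {ι : Type*} {F : Filter ι}
    {z : ι → H E} {z₀ : H E} (hz : Tendsto z F (𝓝 z₀)) (hiso : ∀ᶠ i in F, Iso (z i).1)
    (h₀ : Iso z₀.1) {y : ι → E} {y₀ : E} (hy : Tendsto y F (𝓝 y₀))
    (hy₀ : y₀ ∈ interior (tile P z₀)) : ∀ᶠ i in F, y i ∈ interior (tile P (z i)) := by
  rw [interior_tile P h₀] at hy₀
  obtain ⟨p, hp, hpy⟩ := hy₀
  have h2 : ∀ i, ∃ q : E, Iso (z i).1 → act (z i).1 q = y i := by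
    intro i
    by_cases hi : Iso (z i).1
    · obtain ⟨g, hg⟩ := exists_equiv hi
      refine ⟨g.symm (y i), fun _ => ?_⟩
      rw [← hg]; simp
    · exact ⟨0, fun h => absurd h hi⟩
  choose q hq using h2
  have hlim : Tendsto q F (𝓝 p) := by
    rw [tendsto_iff_dist_tendsto_zero]
    have e1 : Tendsto (fun i => dist (y i) (act (z i).1 p)) F (𝓝 0) := by
      have := hy.dist (tendsto_act (fst_tendsto hz) (tendsto_const_nhds (x := p)))
      rwa [hpy, dist_self] at this
    refine e1.congr' ?_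
    filter_upwards [hiso] with i hi
    rw [← hq i hi, act_dist hi]
  have hev : ∀ᶠ i in F, q i ∈ interior (P z₀.2) := hlim (isOpen_interior.mem_nhds hp)
  filter_upwards [hiso, hev, idx_eventually hz] with i hi1 hi2 hi3
  rw [interior_tile P hi1]
  exact ⟨q i, by rw [hi3]; exact hi2, hq i hi1⟩

theorem exists_bound (hP : ∀ i, IsCompact (P i)) (m : ℕ) :
    ∃ D : ℝ, ∀ i < m, ∀ p ∈ P i, ‖p‖ ≤ D := by
  have h1 : IsCompact (⋃ i ∈ {i | i < m}, P i) :=
    (Set.finite_lt_nat m).isCompact_biUnion (fun i _ => hP i)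
  obtain ⟨D, hD⟩ := h1.isBounded.exists_norm_le
  exact ⟨D, fun i hi p hp => hD p (mem_biUnion (show i ∈ {i | i < m} from hi) hp)⟩

theorem compactSpace_X (hP : ∀ i, IsCompact (P i)) : CompactSpace (X P m) := by
  obtain ⟨D, hD⟩ := exists_bound hP m
  constructor
  rw [isCompact_iff_ultrafilter_le_nhds]
  intro F _
  -- the limit set
  let C₀ : Set (H E) := {z | Tendsto (fun C : X P m => infDist z C.1) F (𝓝 0)}
  have hseq : ∀ z ∈ C₀, ∃ w : X P m → H E, (∀ C, w C ∈ C.1) ∧ Tendsto w F (𝓝 z) := by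
    intro z hz
    obtain ⟨w, hw1, hw2⟩ := exists_near (P := P) (m := m) z
    exact ⟨w, hw1, tendsto_near hw2 hz⟩
  have hmem : ∀ (w : X P m → H E) (z : H E), (∀ C, w C ∈ C.1) → Tendsto w F (𝓝 z) → z ∈ C₀ := by
    intro w z hw hz
    apply squeeze_zero (g := fun C => dist z (w C))
    · exact fun C => infDist_nonneg
    · exact fun C => infDist_le_dist_of_mem (hw C)
    · have := (tendsto_iff_dist_tendsto_zero.mp hz)
      simpa only [dist_comm _ z] using this
  have hisoC : ∀ z ∈ C₀, Iso z.1 := by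
    intro z hz
    obtain ⟨w, hw1, hw2⟩ := hseq z hz
    exact iso_closed.mem_of_tendsto (fst_tendsto hw2)
      (Eventually.of_forall fun C => C.2.iso _ (hw1 C))
  have hC₀ : IsPl P m C₀ := by
    refine ⟨?_, hisoC, ?_, ?_, ?_⟩
    · -- closed
      rw [← closure_subset_iff_isClosed]
      intro z hz
      show Tendsto _ _ _
      rw [Metric.tendsto_nhds]
      intro ε hε
      obtain ⟨z', hz', hd⟩ := Metric.mem_closure_iff.mp hz (ε / 2) (half_pos hε)
      have h1 := (Metric.tendsto_nhds.mp (show Tendsto _ _ _ from hz')) (ε / 2) (half_pos hε)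
      filter_upwards [h1] with C hC
      rw [Real.dist_eq, sub_zero, abs_of_nonneg infDist_nonneg] at hC ⊢
      have := infDist_le_infDist_add_dist (s := C.1) (x := z) (y := z')
      linarith
    · intro z hz
      obtain ⟨w, hw1, hw2⟩ := hseq z hz
      obtain ⟨C, hC⟩ := (idx_eventually hw2).exists
      rw [← hC]
      exact C.2.idx _ (hw1 C)
    · intro x
      have h1 : ∀ C : X P m, ∃ z ∈ C.1, ∃ p ∈ P z.2, act z.1 p = x := fun C => C.2.cover x
      choose w hw p hp hwp using h1
      obtain ⟨z, hz⟩ := exists_limitH F w (‖x‖ + D + 1) m (Eventually.of_forall fun C =>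
        ⟨norm_le_of_mem (hD _ (C.2.idx _ (hw C))) (C.2.iso _ (hw C)) ⟨p C, hp C, hwp C⟩,
          C.2.idx _ (hw C)⟩)
      obtain ⟨p₀, hp₀, hlim⟩ := exists_limit' F (hP z.2) p ((idx_eventually hz).mono
        fun C hC => by rw [← hC]; exact hp C)
      refine ⟨z, hmem w z hw hz, p₀, hp₀, ?_⟩
      refine tendsto_nhds_unique (tendsto_act (fst_tendsto hz) hlim) ?_
      simp only [hwp]
      exact tendsto_const_nhds
    · intro z hz w hw hne'
      obtain ⟨z', hz1, hz2⟩ := hseq z hz
      obtain ⟨w', hw1, hw2⟩ := hseq w hw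
      have hzi : Iso z.1 := hisoC z hz
      have hwi : Iso w.1 := hisoC w hw
      rw [Set.disjoint_left]
      intro y hy1 hy2
      apply hne'
      apply tile_eq_of_tendsto hP hz2 hw2
      have e1 := eventually_mem_interior hz2 (Eventually.of_forall fun C => C.2.iso _ (hz1 C)) hzi
        (tendsto_const_nhds (x := y)) hy1
      have e2 := eventually_mem_interior hw2 (Eventually.of_forall fun C => C.2.iso _ (hw1 C)) hwi
        (tendsto_const_nhds (x := y)) hy2
      filter_upwards [e1, e2] with C h1 h2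
      by_contra hcon
      exact (Set.disjoint_left.mp (C.2.disj _ (hz1 C) _ (hw1 C) hcon)) h1 h2
  refine ⟨(⟨C₀, hC₀⟩ : X P m), mem_univ _, le_nhds_X.mpr fun z => ?_⟩
  -- the distance converges
  obtain ⟨w, hw1, hw2⟩ := exists_near (P := P) (m := m) z
  have hbd : ∀ C : X P m, ‖(w C).1‖ ≤ ‖z.1‖ + (‖z.1‖ + (‖z.1‖ + D + 1) + (z.2 + m)) := by
    intro C
    obtain ⟨v, hv, hv'⟩ := C.2.cover z.1.1
    have hvm := C.2.idx _ hv
    have h1 := norm_le_of_mem (hD _ hvm) (C.2.iso _ hv) hv'
    have h2 : ‖z.1.1‖ ≤ ‖z.1‖ := norm_fst_le z.1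
    have h3 : dist z (w C) ≤ dist z v := by
      rw [hw2]; exact infDist_le_dist_of_mem hv
    have hnn : (0 : ℝ) ≤ ‖z.1‖ + ‖v.1‖ := by positivity
    have h4 : dist z v ≤ (‖z.1‖ + ‖v.1‖) + (z.2 + m) := by
      rw [Prod.dist_eq]
      apply max_le
      · have : dist z.1 v.1 ≤ ‖z.1‖ + ‖v.1‖ := by rw [dist_eq_norm]; exact norm_sub_le _ _
        have : (0 : ℝ) ≤ z.2 + m := by positivity
        linarith
      · rw [Nat.dist_eq]
        have hvm' : (v.2 : ℝ) ≤ m := by exact_mod_cast hvm.le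
        have h5 : (0 : ℝ) ≤ v.2 := by positivity
        have h6 : (0 : ℝ) ≤ z.2 := by positivity
        have h7 : |(z.2 : ℝ) - v.2| ≤ z.2 + v.2 := by
          rw [abs_le]
          constructor <;> linarith
        linarith
    have h5 : ‖(w C).1‖ ≤ ‖z.1‖ + dist z (w C) := by
      have h6 : dist z.1 (w C).1 ≤ dist z (w C) := by
        rw [Prod.dist_eq]; exact le_max_left _ _
      have h7 : ‖(w C).1‖ ≤ ‖z.1‖ + dist z.1 (w C).1 := by
        rw [dist_eq_norm]
        calc ‖(w C).1‖ = ‖z.1 - (z.1 - (w C).1)‖ := by congr 1; abel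
          _ ≤ _ := norm_sub_le _ _
      linarith
    linarith
  obtain ⟨w₀, hw₀⟩ := exists_limitH F w _ m (Eventually.of_forall fun C =>
    ⟨hbd C, C.2.idx _ (hw1 C)⟩)
  have hw₀mem : w₀ ∈ C₀ := hmem w w₀ hw1 hw₀
  have hlim : Tendsto (fun C : X P m => infDist z C.1) F (𝓝 (dist z w₀)) := by
    have := (tendsto_const_nhds (x := z)).dist hw₀
    simpa only [hw2] using this
  have heq : infDist z C₀ = dist z w₀ := by
    apply le_antisymm (infDist_le_dist_of_mem hw₀mem)
    obtain ⟨v, hv1, hv2⟩ := hC₀.closed.exists_infDist_eq_dist hC₀.nonempty z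
    rw [hv2]
    obtain ⟨v', hv'1, hv'2⟩ := hseq v hv1
    refine le_of_tendsto_of_tendsto' hlim ((tendsto_const_nhds (x := z)).dist hv'2) ?_
    exact fun C => infDist_le_dist_of_mem (hv'1 C)
  show Tendsto _ _ (𝓝 (infDist z C₀))
  rw [heq]
  exact hlim

/-! ### Translations -/

/-- translation of a placement -/
def sh (a : E) (z : H E) : H E := (z.1 + (a, 0), z.2)

/-- translation of a placement set -/
def shift (a : E) (C : Set (H E)) : Set (H E) := sh a '' C

theorem act_add (z : G E) (a x : E) : act (z + (a, 0)) x = act z x + a := by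
  simp only [act, Prod.fst_add, Prod.snd_add, add_zero]
  abel

theorem tile_add (P : ℕ → Set E) (z : H E) (a : E) :
    tile P (sh a z) = (fun x => x + a) '' tile P z := by
  unfold tile sh
  rw [image_image]
  simp only [act_add]

/-- the translation as a homeomorphism of the placements -/
theorem sh_isometry (a : E) : Isometry (sh a : H E → H E) := by
  refine Isometry.of_dist_eq fun z w => ?_
  show max (dist (z.1 + (a, 0)) (w.1 + (a, 0))) (dist z.2 w.2) = max (dist z.1 w.1) (dist z.2 w.2)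
  rw [dist_add_right]

theorem sh_sh (a b : E) (z : H E) : sh a (sh b z) = sh (a + b) z := by
  refine Prod.ext (Prod.ext ?_ ?_) rfl
  · show z.1.1 + b + a = z.1.1 + (a + b)
    abel
  · show z.1.2 + 0 + 0 = z.1.2 + 0
    simp

theorem sh_zero (z : H E) : sh 0 z = z := by
  refine Prod.ext (Prod.ext ?_ ?_) rfl
  · show z.1.1 + 0 = z.1.1
    simp
  · show z.1.2 + 0 = z.1.2
    simp

/-- the translation as a homeomorphism -/
def shH (a : E) : H E ≃ₜ H E where
  toFun := sh a
  invFun := sh (-a)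
  left_inv z := by rw [sh_sh, neg_add_cancel, sh_zero]
  right_inv z := by rw [sh_sh, add_neg_cancel, sh_zero]
  continuous_toFun := (sh_isometry a).continuous
  continuous_invFun := (sh_isometry (-a)).continuous

theorem isPl_shift {C : Set (H E)} (h : IsPl P m C) (a : E) :
    IsPl P m (shift a C) := by
  have hinj : Function.Injective (fun x : E => x + a) := add_left_injective a
  refine ⟨?_, ?_, ?_, ?_, ?_⟩
  · exact (shH a).isClosedMap _ h.closed
  · rintro _ ⟨z, hz, rfl⟩ x
    simpa [sh] using h.iso z hz x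
  · rintro _ ⟨z, hz, rfl⟩
    exact h.idx z hz
  · intro x
    obtain ⟨z, hz, hx⟩ := h.cover (x - a)
    refine ⟨sh a z, ⟨z, hz, rfl⟩, ?_⟩
    rw [tile_add]
    exact ⟨x - a, hx, by simp⟩
  · rintro _ ⟨z, hz, rfl⟩ _ ⟨w, hw, rfl⟩ hne
    simp only [tile_add] at hne ⊢
    have h1 := h.disj z hz w hw (fun h => hne (by rw [h]))
    have e : ∀ A : Set E, interior ((fun x => x + a) '' A) = (fun x => x + a) '' interior A :=
      fun A => ((Homeomorph.addRight a).image_interior A).symm
    rw [e, e]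
    exact (disjoint_image_iff hinj).mpr h1

/-- The action of the space by translations. -/
def trans (a : E) (C : X P m) : X P m := ⟨shift a C.1, isPl_shift C.2 a⟩

theorem trans_zero (C : X P m) : trans 0 C = C := by
  apply Subtype.ext
  show sh 0 '' C.1 = C.1
  have : (sh 0 : H E → H E) = id := by
    ext1 z
    exact sh_zero z
  rw [this, image_id]

theorem trans_add (a b : E) (C : X P m) :
    trans (a + b) C = trans a (trans b C) := by
  apply Subtype.ext
  show sh (a + b) '' C.1 = sh a '' (sh b '' C.1)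
  rw [image_image]
  congr 1
  ext1 z
  exact (sh_sh a b z).symm

theorem continuous_trans (a : E) : Continuous (trans a : X P m → X P m) := by
  rw [(isInducing_emb P m).continuous_iff]
  apply continuous_pi
  intro z
  have h : (fun C : X P m => (emb P m ∘ trans a) C z) = fun C => emb P m C (sh (-a) z) := by
    ext1 C
    show infDist z (sh a '' C.1) = infDist (sh (-a) z) C.1
    have e := infDist_image (sh_isometry a) (x := sh (-a) z) (t := C.1)
    rw [← e, sh_sh, add_neg_cancel, sh_zero]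
  rw [h]
  exact (continuous_apply _).comp (isInducing_emb P m).continuous

end Pool.Agent.Y769.SP
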