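import Pool.Agent.Y769.SP.Base

/-!
# Rigidity of the symmetries of a tiling by finitely many prototiles
-/

set_option autoImplicit false
set_option linter.unusedSectionVars false

namespace Pool.Agent.Y769.SP

open Filter Topology Metric Set

variable {E : Type*} [NormedAddCommGroup E] [NormedSpace ℝ E] [FiniteDimensional ℝ E]
  [Nontrivial E] {P : ℕ → Set E} {m : ℕ}

/-- tilings by the prototiles `P i`, `i < m` -/
def AdmF (𝒞 : Set (Set E)) (P : ℕ → Set E) (m : ℕ) (T : Set (Set E)) : Prop :=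
  IsTiling 𝒞 T ∧ ∀ A ∈ T, ∃ i < m, ∃ g : E ≃ᵢ E, A = g '' P i

/-- Data of prototiles. -/
structure Proto (P : ℕ → Set E) (m : ℕ) (p₀ : ℕ → E) (r D : ℝ) : Prop where
  rpos : 0 < r
  ball : ∀ i < m, ball (p₀ i) r ⊆ P i
  bound : ∀ i < m, P i ⊆ closedBall (p₀ i) D

/-- The symmetry permutations of a tiling. -/
def Sym (T : Set (Set E)) : Set (Equiv.Perm E) := {s | Sim 1 s ∧ img s T = T}

theorem Sym.mul {T : Set (Set E)} {s t : Equiv.Perm E} (hs : s ∈ Sym T) (ht : t ∈ Sym T) :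
    s * t ∈ Sym T := by
  refine ⟨by simpa using hs.1.mul ht.1, ?_⟩
  rw [img_mul, ht.2, hs.2]

theorem Sym.inv {T : Set (Set E)} {s : Equiv.Perm E} (hs : s ∈ Sym T) : s⁻¹ ∈ Sym T := by
  refine ⟨by simpa using hs.1.inv, ?_⟩
  conv_lhs => rw [← hs.2]
  rw [← img_mul, inv_mul_cancel, img_one]

theorem diam_pos {p₀ : ℕ → E} {r D : ℝ} (hP : Proto P m p₀ r D) {i : ℕ} (hi : i < m) :
    0 < diam (P i) := by
  have hb : Bornology.IsBounded (P i) := isBounded_closedBall.subset (hP.bound i hi)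
  have h1 : (0 : ℝ) < diam (ball (p₀ i) r) := by
    obtain ⟨v, hv⟩ := exists_norm_eq E (show (0 : ℝ) ≤ r / 2 by linarith [hP.rpos])
    have h2 : p₀ i + v ∈ ball (p₀ i) r := by
      rw [mem_ball, dist_eq_norm, add_sub_cancel_left, hv]; linarith [hP.rpos]
    have h3 : p₀ i ∈ ball (p₀ i) r := mem_ball_self hP.rpos
    have h4 := dist_le_diam_of_mem isBounded_ball h2 h3
    rw [dist_eq_norm, add_sub_cancel_left, hv] at h4
    linarith [hP.rpos]
  exact h1.trans_le (diam_mono (hP.ball i hi) hb)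

theorem le_one_of_sim {𝒞 : Set (Set E)} {p₀ : ℕ → E} {r D : ℝ} (hP : Proto P m p₀ r D)
    {T : Set (Set E)} (hT : AdmF 𝒞 P m T) {c : ℝ} {s : Equiv.Perm E} (hs : Sim c s)
    (h : img s T = T) : c ≤ 1 := by
  classical
  -- a tile of maximal diameter
  let I : Finset ℕ := (Finset.range m).filter (fun i => ∃ A ∈ T, ∃ g : E ≃ᵢ E, A = g '' P i)
  have hx : (0 : E) ∈ ⋃₀ T := by rw [hT.1.cover]; trivial
  obtain ⟨A₀, hA₀, _⟩ := hx
  obtain ⟨i₀, hi₀, g₀, hg₀⟩ := hT.2 A₀ hA₀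
  have hI : I.Nonempty := ⟨i₀, Finset.mem_filter.2 ⟨Finset.mem_range.2 hi₀, A₀, hA₀, g₀, hg₀⟩⟩
  obtain ⟨i, hiI, hmax⟩ := Finset.exists_max_image I (fun i => diam (P i)) hI
  obtain ⟨him, A, hA, g, hg⟩ := Finset.mem_filter.1 hiI
  rw [Finset.mem_range] at him
  have hsA : s '' A ∈ T := by rw [← h]; exact ⟨A, hA, rfl⟩
  obtain ⟨j, hj, g', hg'⟩ := hT.2 _ hsA
  have hb : ∀ i < m, Bornology.IsBounded (P i) := fun i hi =>
    isBounded_closedBall.subset (hP.bound i hi)
  have hd1 : c * diam A ≤ diam (s '' A) := by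
    have h1 : diam A ≤ c⁻¹ * diam (s '' A) := by
      apply diam_le_of_forall_dist_le (mul_nonneg (inv_pos.mpr hs.1).le diam_nonneg)
      intro x hx y hy
      have hb' : Bornology.IsBounded (s '' A) := by
        rw [hg']; exact g'.isometry.lipschitz.isBounded_image (hb j hj)
      have := dist_le_diam_of_mem hb' (mem_image_of_mem s hx) (mem_image_of_mem s hy)
      rw [hs.2] at this
      rw [inv_mul_eq_div, le_div_iff₀ hs.1]
      linarith
    rw [inv_mul_eq_div, le_div_iff₀ hs.1] at h1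
    linarith
  have e1 : diam A = diam (P i) := by rw [hg]; exact g.isometry.diam_image (P i)
  have e2 : diam (s '' A) = diam (P j) := by rw [hg']; exact g'.isometry.diam_image (P j)
  have e3 : diam (P j) ≤ diam (P i) :=
    hmax j (Finset.mem_filter.2 ⟨Finset.mem_range.2 hj, _, hsA, g', hg'⟩)
  have hpos := diam_pos hP him
  rw [e1, e2] at hd1
  have h2 : c * diam (P i) ≤ 1 * diam (P i) := by linarith
  exact le_of_mul_le_mul_right h2 hpos

/-- A similarity that maps a tiling onto itself is an isometry. -/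
theorem sim_eq_one {𝒞 : Set (Set E)} {p₀ : ℕ → E} {r D : ℝ} (hP : Proto P m p₀ r D)
    {T : Set (Set E)} (hT : AdmF 𝒞 P m T) {c : ℝ} {s : Equiv.Perm E} (hs : Sim c s)
    (h : img s T = T) : c = 1 := by
  apply le_antisymm (le_one_of_sim hP hT hs h)
  have h2 : img (s⁻¹ : Equiv.Perm E) T = T := by
    conv_lhs => rw [← h]
    rw [← img_mul, inv_mul_cancel, img_one]
  have h3 := le_one_of_sim hP hT hs.inv h2
  exact (inv_le_one₀ hs.1).1 h3

/-- A symmetry close to the identity on a large ball is the identity. -/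
theorem small_sym {𝒞 : Set (Set E)} {p₀ : ℕ → E} {r D : ℝ} (hP : Proto P m p₀ r D)
    {T : Set (Set E)} (hT : AdmF 𝒞 P m T) {s : Equiv.Perm E} (hs : s ∈ Sym T)
    (hsmall : ∀ x : E, ‖x‖ ≤ 9 * D → dist (s x) x < r) : s = 1 := by
  have hD : 0 < D := by
    by_contra hD
    push Not at hD
    have hx : (0 : E) ∈ ⋃₀ T := by rw [hT.1.cover]; trivial
    obtain ⟨A₀, hA₀, _⟩ := hx
    obtain ⟨i, hi, _, _⟩ := hT.2 A₀ hA₀
    obtain ⟨v, hv⟩ := exists_norm_eq E (show (0 : ℝ) ≤ r / 2 by linarith [hP.rpos])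
    have h2 : p₀ i + v ∈ ball (p₀ i) r := by
      rw [mem_ball, dist_eq_norm, add_sub_cancel_left, hv]; linarith [hP.rpos]
    have h3 := hP.bound i hi (hP.ball i hi h2)
    rw [mem_closedBall, dist_eq_norm, add_sub_cancel_left, hv] at h3
    linarith [hP.rpos]
  -- powers of `s` move points of the ball of radius `8 D` by at most `2 D`
  have key : ∀ x : E, ‖x‖ ≤ 8 * D → ∀ m : ℕ, dist ((s ^ m) x) x ≤ 2 * D := by
    intro x hx m
    have hxu : x ∈ ⋃₀ T := by rw [hT.1.cover]; trivial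
    obtain ⟨A, hA, hxA⟩ := hxu
    obtain ⟨i, hi, g, hg⟩ := hT.2 A hA
    have hgball : ball (g (p₀ i)) r ⊆ A := by
      rw [hg]
      intro y hy
      refine ⟨g.symm y, hP.ball i hi ?_, by simp⟩
      rw [mem_ball] at hy ⊢
      rw [← g.dist_eq]
      simpa using hy
    have hgbd : A ⊆ closedBall (g (p₀ i)) D := by
      rw [hg]
      rintro _ ⟨y, hy, rfl⟩
      rw [mem_closedBall, g.dist_eq]
      exact hP.bound i hi hy
    have hc : ‖g (p₀ i)‖ ≤ 9 * D := by
      have h1 := hgbd hxA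
      rw [mem_closedBall, dist_eq_norm] at h1
      calc ‖g (p₀ i)‖ = ‖x - (x - g (p₀ i))‖ := by congr 1; abel
        _ ≤ ‖x‖ + ‖x - g (p₀ i)‖ := norm_sub_le _ _
        _ ≤ _ := by linarith
    have hsA : s '' A ∈ T := by rw [← hs.2]; exact ⟨A, hA, rfl⟩
    have heq : s '' A = A := by
      by_contra hne
      have hdisj := hT.1.disjoint _ hsA _ hA hne
      have h1 : s (g (p₀ i)) ∈ interior A := by
        apply interior_maximal hgball isOpen_ball
        exact hsmall _ hc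
      have h2 : s (g (p₀ i)) ∈ interior (s '' A) := by
        rw [← image_interior_sim hs.1]
        exact ⟨_, interior_maximal hgball isOpen_ball (mem_ball_self hP.rpos), rfl⟩
      exact (Set.disjoint_left.mp hdisj) h2 h1
    have hmem : ∀ m : ℕ, (s ^ m) x ∈ A := by
      intro m
      induction m with
      | zero => simpa using hxA
      | succ m ih =>
        rw [pow_succ', Equiv.Perm.mul_apply, ← heq]
        exact mem_image_of_mem _ ih
    have h1 := hgbd (hmem m)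
    have h2 := hgbd hxA
    rw [mem_closedBall] at h1 h2
    calc dist ((s ^ m) x) x ≤ dist ((s ^ m) x) (g (p₀ i)) + dist x (g (p₀ i)) := dist_triangle_right _ _ _
      _ ≤ _ := by linarith
  -- linear part
  let e : E ≃ᵢ E := ⟨s, Isometry.of_dist_eq fun x y => by
    show dist (s x) (s y) = dist x y
    rw [hs.1.2, one_mul]⟩
  obtain ⟨z, hz, hez⟩ := exists_placement e
  have hsz : ∀ x, s x = act z x := hez
  have hpow : ∀ (m : ℕ) (x : E), (s ^ m) x - (s ^ m) 0 = (z.2 ^ m) x := by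
    intro m
    induction m with
    | zero => intro x; simp
    | succ m ih =>
      intro x
      rw [pow_succ', pow_succ', Equiv.Perm.mul_apply, Equiv.Perm.mul_apply, hsz, hsz]
      show z.1 + z.2 _ - (z.1 + z.2 _) = z.2 ((z.2 ^ m) x)
      rw [← ih, map_sub]
      abel
  have hL : z.2 = 1 := by
    apply linear_eq_one
    intro m
    apply ContinuousLinearMap.opNorm_le_bound _ (by norm_num)
    intro x
    by_cases hx0 : x = 0
    · simp [hx0]
    have hxn : 0 < ‖x‖ := norm_pos_iff.mpr hx0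
    set y : E := (8 * D / ‖x‖) • x with hy
    have hyn : ‖y‖ = 8 * D := by
      rw [hy, norm_smul, Real.norm_eq_abs, abs_of_pos (by positivity)]
      field_simp
    have h1 := key y hyn.le m
    have h2 := key 0 (by simp; exact hD.le) m
    have h3 : ‖(z.2 ^ m - 1) y‖ ≤ 4 * D := by
      have : (z.2 ^ m - 1) y = ((s ^ m) y - y) - ((s ^ m) 0 - 0) := by
        show (z.2 ^ m) y - y = _
        rw [← hpow]
        abel
      rw [this]
      rw [dist_eq_norm] at h1 h2
      calc _ ≤ ‖(s ^ m) y - y‖ + ‖(s ^ m) 0 - 0‖ := norm_sub_le _ _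
        _ ≤ _ := by linarith
    have h4 : (z.2 ^ m - 1) y = (8 * D / ‖x‖) • (z.2 ^ m - 1) x := by
      rw [hy, map_smul]
    rw [h4, norm_smul, Real.norm_eq_abs, abs_of_pos (by positivity)] at h3
    rw [div_mul_eq_mul_div, div_le_iff₀ hxn] at h3
    have h5 : 8 * D * ‖(z.2 ^ m - 1) x‖ ≤ 8 * D * (1 / 2 * ‖x‖) := by linarith
    exact le_of_mul_le_mul_left h5 (by positivity)
  have hsx : ∀ x, s x = x + z.1 := by
    intro x
    rw [hsz]
    unfold act
    rw [hL]
    show z.1 + x = x + z.1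
    abel
  have hpow2 : ∀ m : ℕ, (s ^ m) 0 = (m : ℝ) • z.1 := by
    intro m
    induction m with
    | zero => simp
    | succ m ih =>
      rw [pow_succ', Equiv.Perm.mul_apply, ih, hsx]
      push_cast
      rw [add_smul, one_smul]
  have hz1 : z.1 = 0 := by
    by_contra hne
    have hpos : 0 < ‖z.1‖ := norm_pos_iff.mpr hne
    obtain ⟨m, hm⟩ := exists_nat_gt (2 * D / ‖z.1‖)
    have h1 := key 0 (by simp; exact hD.le) m
    rw [hpow2, dist_zero_right, norm_smul, Real.norm_eq_abs, abs_of_nonneg (by positivity)] at h1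
    rw [div_lt_iff₀ hpos] at hm
    linarith
  ext1 x
  rw [hsx, hz1, add_zero]
  rfl
/-- Two expansions with the same unique composition have the same fixed point. -/
theorem fixed_eq {𝒞 : Set (Set E)} (h𝒞 : IsTileClass 𝒞) {p₀ : ℕ → E} {r D : ℝ}
    (hP : Proto P m p₀ r D) {T T₁ : Set (Set E)} (hT : AdmF 𝒞 P m T) {k : ℕ}
    (huniq : ∀ T', IsComposition 𝒞 k T' T → Equal T T' → T' = T₁)
    {c₁ c₂ : ℝ} {f₁ f₂ : Equiv.Perm E} (h₁ : Sim c₁ f₁) (h₂ : Sim c₂ f₂)
    (hc₂ : 1 < c₂) (hf₁ : IsComposition 𝒞 k (img f₁ T) T) (hf₂ : IsComposition 𝒞 k (img f₂ T) T)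
    {x₁ x₂ : E} (hx₁ : f₁ x₁ = x₁) (hx₂ : f₂ x₂ = x₂) : x₁ = x₂ := by
  have e₁ : img f₁ T = T₁ := huniq _ hf₁ (equal_img h₁ T)
  have e₂ : img f₂ T = T₁ := huniq _ hf₂ (equal_img h₂ T)
  -- the quotient of the expansions is a symmetry
  have hq : f₂⁻¹ * f₁ ∈ Sym T := by
    have h3 : img (f₂⁻¹ * f₁ : Equiv.Perm E) T = T := by
      rw [img_mul, e₁, ← e₂, ← img_mul, inv_mul_cancel, img_one]
    have h4 := h₂.inv.mul h₁
    have h5 := sim_eq_one hP hT h4 h3
    rw [h5] at h4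
    exact ⟨h4, h3⟩
  -- conjugation
  have hconj : ∀ s ∈ Sym T, f₁⁻¹ * s * f₁ ∈ Sym T := by
    intro s hs
    have h3 : img s T₁ = T₁ := by
      apply huniq
      · have := isComposition_img h𝒞 hs.1 hf₁
        rwa [hs.2, e₁] at this
      · have h6 : img s T₁ = img (s * f₁ : Equiv.Perm E) T := by rw [img_mul, e₁]
        rw [h6]
        exact equal_img (hs.1.mul h₁) T
    refine ⟨?_, ?_⟩
    · have h4 := (h₁.inv.mul hs.1).mul h₁
      have h5 : c₁⁻¹ * 1 * c₁ = 1 := by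
        rw [mul_one, inv_mul_cancel₀ h₁.1.ne']
      rwa [h5] at h4
    · rw [img_mul, img_mul, e₁, h3, ← e₁, ← img_mul, inv_mul_cancel, img_one]
  have ht : ∀ m : ℕ, (f₂⁻¹) ^ m * f₁ ^ m ∈ Sym T := by
    intro m
    induction m with
    | zero =>
      refine ⟨by simpa using ⟨one_pos, fun x y => by simp⟩, by simpa using img_one T⟩
    | succ m ih =>
      have e : (f₂⁻¹) ^ (m + 1) * f₁ ^ (m + 1) =
          (f₂⁻¹ * f₁) * (f₁⁻¹ * ((f₂⁻¹) ^ m * f₁ ^ m) * f₁) := by
        rw [pow_succ' (f₂⁻¹) m, pow_succ f₁ m]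
        group
      rw [e]
      exact Sym.mul hq (hconj _ ih)
  by_contra hne
  have hpos : 0 < dist x₁ x₂ := dist_pos.mpr hne
  have hfx : ∀ m : ℕ, (f₁ ^ m) x₁ = x₁ := by
    intro m
    induction m with
    | zero => simp
    | succ m ih => rw [pow_succ', Equiv.Perm.mul_apply, ih, hx₁]
  have hval : ∀ m : ℕ, dist (((f₂⁻¹) ^ m * f₁ ^ m : Equiv.Perm E) x₁) x₂ =
      (c₂⁻¹) ^ m * dist x₁ x₂ := by
    intro m
    rw [Equiv.Perm.mul_apply, hfx]
    induction m with
    | zero => simp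
    | succ m ih =>
      have h3 : (f₂⁻¹) x₂ = x₂ := by
        conv_lhs => rw [← hx₂]
        exact f₂.symm_apply_apply x₂
      rw [pow_succ', Equiv.Perm.mul_apply, pow_succ', mul_assoc, ← ih]
      conv_lhs => rw [← h3]
      exact h₂.inv.2 _ _
  set t : ℕ → Equiv.Perm E := fun m => (f₂⁻¹) ^ m * f₁ ^ m with ht_def
  have hc : c₂⁻¹ < 1 := inv_lt_one_of_one_lt₀ hc₂
  have hc0 : 0 < c₂⁻¹ := inv_pos.mpr (by linarith)
  have hinj : ∀ m m' : ℕ, m < m' → t m ≠ t m' := by
    intro m m' hmm heq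
    have h3 := hval m
    have h4 := hval m'
    have h5 : (c₂⁻¹) ^ m' < (c₂⁻¹) ^ m := pow_lt_pow_right_of_lt_one₀ hc0 hc hmm
    have h6 : dist (t m x₁) x₂ = dist (t m' x₁) x₂ := by rw [heq]
    have h7 : (c₂⁻¹) ^ m * dist x₁ x₂ = (c₂⁻¹) ^ m' * dist x₁ x₂ := by
      rw [← h3, ← h4]; exact h6
    have h8 := mul_right_cancel₀ hpos.ne' h7
    linarith
  -- placements
  have hpl : ∀ m, ∃ z : G E, Iso z ∧ ∀ x, t m x = act z x := by
    intro m
    exact exists_placement ⟨t m, Isometry.of_dist_eq fun x y => by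
      show dist (t m x) (t m y) = dist x y
      rw [(ht m).1.2, one_mul]⟩
  choose z hz hzt using hpl
  let F : Ultrafilter ℕ := hyperfilter ℕ
  have hbd : ∀ m, ‖z m‖ ≤ ‖x₂‖ + dist x₁ x₂ + ‖x₁‖ + 1 := by
    intro m
    have h3 : ‖act (z m) x₁‖ ≤ ‖x₂‖ + dist x₁ x₂ := by
      rw [← hzt]
      have h4 := hval m
      have h5 : (c₂⁻¹) ^ m * dist x₁ x₂ ≤ dist x₁ x₂ :=
        mul_le_of_le_one_left hpos.le (pow_le_one₀ hc0.le hc.le)
      have h6 : ‖t m x₁‖ ≤ ‖x₂‖ + dist (t m x₁) x₂ := by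
        rw [dist_eq_norm]
        calc ‖t m x₁‖ = ‖x₂ + (t m x₁ - x₂)‖ := by congr 1; abel
          _ ≤ _ := norm_add_le _ _
      linarith
    have h7 := norm_le_of_mem (P := {x₁}) (D := ‖x₁‖) (by simp) (hz m)
      (x := act (z m) x₁) ⟨x₁, rfl, rfl⟩
    linarith
  obtain ⟨z₀, hz₀⟩ := exists_limit F z _ (Eventually.of_forall hbd)
  -- two close members
  have hr := hP.rpos
  obtain ⟨ε, hε, hεr⟩ : ∃ ε : ℝ, 0 < ε ∧ 2 * ε * (1 + |9 * D|) < r := by
    refine ⟨r / (4 * (1 + |9 * D|)), by positivity, ?_⟩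
    have : 2 * (r / (4 * (1 + |9 * D|))) * (1 + |9 * D|) = r / 2 := by
      field_simp
      norm_num
    rw [this]; linarith
  have hev : ∀ᶠ m in F, dist (z m) z₀ < ε := Metric.tendsto_nhds.mp hz₀ ε hε
  obtain ⟨m, hm⟩ := hev.exists
  have hgt : ∀ᶠ m' in F, m < m' := by
    have : ∀ᶠ m' in (atTop : Filter ℕ), m < m' := eventually_gt_atTop m
    rw [← Nat.cofinite_eq_atTop] at this
    exact hyperfilter_le_cofinite this
  obtain ⟨m', hm'1, hm'2⟩ := (hev.and hgt).exists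
  apply hinj m m' hm'2
  have hsmall : ∀ x : E, ‖x‖ ≤ 9 * D → dist (((t m)⁻¹ * t m' : Equiv.Perm E) x) x < r := by
    intro x hx
    have h3 : dist (((t m)⁻¹ * t m' : Equiv.Perm E) x) x = dist (t m' x) (t m x) := by
      rw [Equiv.Perm.mul_apply]
      have h4 := (ht m).1.2 ((t m)⁻¹ (t m' x)) x
      have h5 : t m ((t m)⁻¹ (t m' x)) = t m' x := (t m).apply_symm_apply _
      rw [one_mul] at h4
      rw [← h4]
      show dist (t m ((t m)⁻¹ (t m' x))) (t m x) = _
      rw [h5]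
    rw [h3, hzt, hzt]
    have h6 : dist (z m') (z m) ≤ 2 * ε := by
      have := dist_triangle_right (z m') (z m) z₀
      linarith
    have h7 : dist (act (z m') x) (act (z m) x) ≤ dist (z m') (z m) * (1 + ‖x‖) := by
      rw [dist_eq_norm, dist_eq_norm]
      have h8 : act (z m') x - act (z m) x = (z m' - z m).1 + (z m' - z m).2 x := by
        unfold act
        simp only [Prod.fst_sub, Prod.snd_sub, sub_apply]
        abel
      rw [h8]
      calc ‖(z m' - z m).1 + (z m' - z m).2 x‖ ≤ ‖(z m' - z m).1‖ + ‖(z m' - z m).2 x‖ :=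
            norm_add_le _ _
        _ ≤ ‖z m' - z m‖ + ‖z m' - z m‖ * ‖x‖ := by
            gcongr
            · exact norm_fst_le _
            · exact (ContinuousLinearMap.le_opNorm _ _).trans
                (mul_le_mul_of_nonneg_right (norm_snd_le _) (norm_nonneg _))
        _ = _ := by ring
    have h9 : ‖x‖ ≤ |9 * D| := hx.trans (le_abs_self _)
    calc dist (act (z m') x) (act (z m) x) ≤ dist (z m') (z m) * (1 + ‖x‖) := h7
      _ ≤ 2 * ε * (1 + |9 * D|) := by gcongr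
      _ < r := hεr
  have h10 := small_sym hP hT (Sym.mul (Sym.inv (ht m)) (ht m')) hsmall
  have h11 : t m * ((t m)⁻¹ * t m') = t m * 1 := by rw [h10]
  rw [mul_inv_cancel_left, mul_one] at h11
  exact h11.symm

end Pool.Agent.Y769.SP
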