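import Pool.Agent.Y769.SP.Closed
import Pool.Agent.Y769.SP.Rigid

/-!
# No finite set of prototiles forces uniquely composable similarity tilings
-/

set_option autoImplicit false
set_option linter.unusedSectionVars false

namespace Pool.Agent.Y769.SP

open Filter Topology Metric Set

variable {E : Type*} [NormedAddCommGroup E] [NormedSpace ℝ E] [FiniteDimensional ℝ E]
  [Nontrivial E] {P : ℕ → Set E} {m : ℕ}

/-! ### From tilings to placement sets and back -/

theorem isPl_of_admits {𝒞 : Set (Set E)} (hP : ∀ i, IsCompact (P i))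
    (hne : ∀ i < m, (interior (P i)).Nonempty) {T : Set (Set E)} (hT : AdmF 𝒞 P m T) :
    IsPl P m {z | Iso z.1 ∧ z.2 < m ∧ tile P z ∈ T} := by
  refine ⟨?_, fun z hz => hz.1, fun z hz => hz.2.1, ?_, ?_⟩
  · rw [isClosed_iff_ultrafilter]
    intro z F hF hmem
    have hev : ∀ᶠ w in F, Iso w.1 ∧ w.2 < m ∧ tile P w ∈ T := hmem
    have hlim : Tendsto (fun w : H E => w) F (𝓝 z) := hF
    have hz : Iso z.1 := iso_closed.mem_of_tendsto (fst_tendsto hlim) (hev.mono fun w h => h.1)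
    have hzm : z.2 < m := by
      obtain ⟨w, hw1, hw2⟩ := (hev.and (idx_eventually hlim)).exists
      rw [← hw2]
      exact hw1.2.1
    obtain ⟨p₀, hp₀⟩ := hne z.2 hzm
    refine ⟨hz, hzm, ?_⟩
    have hy : act z.1 p₀ ∈ interior (tile P z) := by
      rw [interior_tile P hz]; exact ⟨p₀, hp₀, rfl⟩
    have h1 := eventually_mem_interior hlim (hev.mono fun w h => h.1) hz
      (tendsto_const_nhds (x := act z.1 p₀)) hy
    obtain ⟨w₁, hw₁, hyw₁⟩ := (hev.and h1).exists
    have h2 : ∀ᶠ w in F, tile P w = tile P w₁ := by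
      filter_upwards [hev, h1] with w hw hyw
      by_contra hcon
      exact (Set.disjoint_left.mp (hT.1.disjoint _ hw.2.2 _ hw₁.2.2 hcon)) hyw hyw₁
    have h3 := tile_eq_of_tendsto (w := fun _ => w₁) hP hlim tendsto_const_nhds h2
    rw [h3]
    exact hw₁.2.2
  · intro x
    have hx : x ∈ ⋃₀ T := by rw [hT.1.cover]; trivial
    obtain ⟨A, hA, hxA⟩ := hx
    obtain ⟨i, hi, g, hg⟩ := hT.2 A hA
    obtain ⟨z, hz, hgz⟩ := exists_placement g
    have h : A = tile P (z, i) := by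
      rw [hg]; unfold tile; exact image_congr fun x _ => hgz x
    exact ⟨(z, i), ⟨hz, hi, h ▸ hA⟩, h ▸ hxA⟩
  · intro z hz w hw hne
    exact hT.1.disjoint _ hz.2.2 _ hw.2.2 hne

/-- The tiling of a placement set. -/
def tiling (P : ℕ → Set E) (C : Set (H E)) : Set (Set E) := tile P '' C

theorem admits_tiling {𝒞 : Set (Set E)} (h𝒞 : IsTileClass 𝒞) (hPC : ∀ i < m, P i ∈ 𝒞)
    (hne : ∀ i < m, (interior (P i)).Nonempty) {C : Set (H E)} (hC : IsPl P m C) :
    AdmF 𝒞 P m (tiling P C) := by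
  have hcong : ∀ A ∈ tiling P C, ∃ i < m, ∃ g : E ≃ᵢ E, A = g '' P i := by
    rintro _ ⟨z, hz, rfl⟩
    obtain ⟨g, hg⟩ := exists_equiv (hC.iso z hz)
    exact ⟨z.2, hC.idx z hz, g, by unfold tile; exact image_congr fun x _ => (hg x).symm⟩
  have hdisj : ∀ A ∈ tiling P C, ∀ B ∈ tiling P C, A ≠ B →
      Disjoint (interior A) (interior B) := by
    rintro _ ⟨z, hz, rfl⟩ _ ⟨w, hw, rfl⟩ hne
    exact hC.disj z hz w hw hne
  refine ⟨⟨?_, ?_, ?_, hdisj⟩, hcong⟩
  · have h1 : (tiling P C).PairwiseDisjoint interior := fun A hA B hB hAB => hdisj A hA B hB hAB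
    apply h1.countable_of_isOpen
    · exact fun _ _ => isOpen_interior
    · rintro _ ⟨z, hz, rfl⟩
      rw [interior_tile P (hC.iso z hz)]
      exact (hne _ (hC.idx z hz)).image _
  · intro A hA
    obtain ⟨i, hi, g, rfl⟩ := hcong A hA
    exact tile_image h𝒞 (exists_perm_isom g) (hPC i hi)
  · rw [eq_univ_iff_forall]
    intro x
    obtain ⟨z, hz, hx⟩ := hC.cover x
    exact ⟨_, ⟨z, hz, rfl⟩, hx⟩

/-- `Comp` gives a composition of the tiling. -/
theorem isComposition_of_comp {𝒞 : Set (Set E)} (h𝒞 : IsTileClass 𝒞) {C : Set (H E)}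
    (hT : AdmF 𝒞 P m (tiling P C)) {k : ℕ} {c : ℝ} {f : Equiv.Perm E} (hf : Sim c f)
    (h : Comp P k f C) : IsComposition 𝒞 k (img f (tiling P C)) (tiling P C) := by
  classical
  refine ⟨isTiling_img h𝒞 hf hT.1, ?_⟩
  rintro _ ⟨_, ⟨z, hz, rfl⟩, rfl⟩
  obtain ⟨g, h1, h2, h3⟩ := h z hz
  refine ⟨Finset.univ.image fun i => tile P (g i), ?_, ?_, ?_⟩
  · intro A hA
    simp only [Finset.coe_image, Finset.coe_univ, image_univ, mem_range] at hA
    obtain ⟨i, rfl⟩ := hA
    exact ⟨g i, h1 i, rfl⟩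
  · rw [Finset.card_image_of_injective, Finset.card_univ, Fintype.card_fin]
    intro i j hij
    by_contra hne
    exact h2 i j hne hij
  · show f '' tile P z = _
    rw [h3]
    simp

theorem comp_of_isComposition {𝒞 : Set (Set E)} {C : Set (H E)} {k : ℕ} {f : E → E}
    (h : IsComposition 𝒞 k (img f (tiling P C)) (tiling P C)) : Comp P k f C := by
  intro z hz
  obtain ⟨S, h1, h2, h3⟩ := h.2 (f '' tile P z) ⟨tile P z, ⟨z, hz, rfl⟩, rfl⟩
  let e := S.equivFinOfCardEq h2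
  have h4 : ∀ i : Fin k, ∃ w ∈ C, tile P w = (e.symm i : Set E) := fun i => h1 (e.symm i).2
  choose g hg1 hg2 using h4
  refine ⟨g, hg1, ?_, ?_⟩
  · intro i j hij heq
    rw [hg2, hg2] at heq
    exact hij (e.symm.injective (Subtype.ext heq))
  · rw [h3]
    ext x
    simp only [mem_sUnion, mem_iUnion, hg2]
    constructor
    · rintro ⟨A, hA, hx⟩
      exact ⟨e ⟨A, hA⟩, by simpa using hx⟩
    · rintro ⟨i, hx⟩
      exact ⟨_, (e.symm i).2, hx⟩

section measure

open MeasureTheory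

variable [MeasurableSpace E] [BorelSpace E]

theorem volume_image_isom (g : E ≃ᵢ E) (A : Set E) :
    (Measure.addHaar : Measure E) (g '' A) = (Measure.addHaar : Measure E) A := by
  obtain ⟨z, hz, hg⟩ := exists_placement g
  let L : E →ₗᵢ[ℝ] E := ⟨z.2.toLinearMap, hz⟩
  let L' : E ≃ₗᵢ[ℝ] E := L.toLinearIsometryEquiv rfl
  have h1 : g '' A = (fun x => z.1 + x) '' (L' '' A) := by
    rw [image_image]
    exact image_congr fun x _ => hg x
  rw [h1, image_add_left, measure_preimage_add]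
  have h2 : ∀ S : Set E, (Measure.addHaar : Measure E) (L' '' S) =
      ENNReal.ofReal |LinearMap.det (z.2 : E →ₗ[ℝ] E)| * (Measure.addHaar : Measure E) S :=
    fun S => Measure.addHaar_image_linearMap _ (z.2 : E →ₗ[ℝ] E) S
  have h3 : L' '' (ball (0 : E) 1) = ball 0 1 := by
    rw [LinearIsometryEquiv.image_ball, map_zero]
  have h4 := h2 (ball (0 : E) 1)
  rw [h3] at h4
  have h5 : (Measure.addHaar : Measure E) (ball (0 : E) 1) ≠ 0 :=
    (isOpen_ball.measure_pos _ ⟨0, mem_ball_self one_pos⟩).ne'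
  have h6 : (Measure.addHaar : Measure E) (ball (0 : E) 1) ≠ ⊤ := measure_ball_lt_top.ne
  have h7 : ENNReal.ofReal |LinearMap.det (z.2 : E →ₗ[ℝ] E)| = 1 := by
    have h8 : ENNReal.ofReal |LinearMap.det (z.2 : E →ₗ[ℝ] E)| *
        (Measure.addHaar : Measure E) (ball (0 : E) 1) =
        1 * (Measure.addHaar : Measure E) (ball (0 : E) 1) := by rw [one_mul]; exact h4.symm
    exact (ENNReal.mul_left_inj h5 h6).1 h8
  rw [h2, h7, one_mul]

end measure

/-- the number `q` with `q ^ d ≤ 2` -/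
noncomputable def qq (E : Type*) [NormedAddCommGroup E] [NormedSpace ℝ E] : ℝ :=
  1 + 1 / (2 * (Module.finrank ℝ E : ℝ))

theorem one_lt_qq : 1 < qq E := by
  unfold qq
  have h : 0 < Module.finrank ℝ E := Module.finrank_pos
  have : (0 : ℝ) < Module.finrank ℝ E := by exact_mod_cast h
  have : (0 : ℝ) < 1 / (2 * (Module.finrank ℝ E : ℝ)) := by positivity
  linarith

theorem qq_pow : qq E ^ Module.finrank ℝ E ≤ 2 := by
  unfold qq
  have h : 0 < Module.finrank ℝ E := Module.finrank_pos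
  have h' : (0 : ℝ) < Module.finrank ℝ E := by exact_mod_cast h
  set d := Module.finrank ℝ E
  have h1 : 1 + 1 / (2 * (d : ℝ)) ≤ Real.exp (1 / (2 * (d : ℝ))) := by
    have := Real.add_one_le_exp (1 / (2 * (d : ℝ)))
    linarith
  have h2 : (1 + 1 / (2 * (d : ℝ))) ^ d ≤ Real.exp (1 / (2 * (d : ℝ))) ^ d :=
    pow_le_pow_left₀ (by positivity) h1 d
  rw [← Real.exp_nat_mul] at h2
  have h3 : (d : ℝ) * (1 / (2 * (d : ℝ))) = 1 / 2 := by field_simp
  rw [h3] at h2
  have h4 : Real.exp (1 / 2) ≤ 2 := by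
    have h5 : Real.exp (1 / 2) ^ 2 = Real.exp 1 := by
      rw [← Real.exp_nat_mul]; norm_num
    have h6 := Real.exp_one_lt_d9
    have h7 := Real.exp_pos (1 / 2 : ℝ)
    nlinarith
  linarith

open MeasureTheory Pointwise in
/-- The ratio of a `k`-composition map is at least `q`. -/
theorem ratio_ge {𝒞 : Set (Set E)} (hP : ∀ i, IsCompact (P i))
    (hne : ∀ i < m, (interior (P i)).Nonempty) {T : Set (Set E)} (hT : AdmF 𝒞 P m T) {k : ℕ}
    (hk : 2 ≤ k) {c : ℝ} {f : Equiv.Perm E} (hf : Sim c f)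
    (h : IsComposition 𝒞 k (img f T) T) : qq E ≤ c := by
  classical
  borelize E
  let μ : Measure E := Measure.addHaar
  -- a tile of minimal volume
  let I : Finset ℕ := (Finset.range m).filter (fun i => ∃ A ∈ T, ∃ g : E ≃ᵢ E, A = g '' P i)
  have hx : (0 : E) ∈ ⋃₀ T := by rw [hT.1.cover]; trivial
  obtain ⟨A₀, hA₀, _⟩ := hx
  obtain ⟨i₀, hi₀, g₀, hg₀⟩ := hT.2 A₀ hA₀
  have hI : I.Nonempty := ⟨i₀, Finset.mem_filter.2 ⟨Finset.mem_range.2 hi₀, A₀, hA₀, g₀, hg₀⟩⟩
  obtain ⟨i, hiI, hmin⟩ := Finset.exists_min_image I (fun i => μ (interior (P i))) hI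
  obtain ⟨him, A, hA, gA, hgA⟩ := Finset.mem_filter.1 hiI
  rw [Finset.mem_range] at him
  obtain ⟨S, h1, h2, h3⟩ := h.2 (f '' A) ⟨A, hA, rfl⟩
  obtain ⟨A₁, hA₁, A₂, hA₂, hne12⟩ := Finset.one_lt_card.mp (by omega : 1 < S.card)
  have hvolg : ∀ (j : ℕ) (g : E ≃ᵢ E), μ (interior (g '' P j)) = μ (interior (P j)) := by
    intro j g
    have : interior (g '' P j) = g '' interior (P j) := (g.toHomeomorph.image_interior (P j)).symm
    rw [this]
    exact volume_image_isom g _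
  have hvol : ∀ B ∈ T, μ (interior (P i)) ≤ μ (interior B) := by
    intro B hB
    obtain ⟨j, hj, g, hg⟩ := hT.2 B hB
    have h4 := hmin j (Finset.mem_filter.2 ⟨Finset.mem_range.2 hj, B, hB, g, hg⟩)
    rw [hg, hvolg]
    exact h4
  have hvpos : 0 < μ (interior (P i)) := isOpen_interior.measure_pos μ (hne i him)
  have hvfin : μ (interior (P i)) ≠ ⊤ :=
    ((measure_mono interior_subset).trans_lt (hP i).measure_lt_top).ne
  -- scaling
  have hscale : μ (interior (f '' A)) =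
      ENNReal.ofReal (c ^ Module.finrank ℝ E) * μ (interior (P i)) := by
    rw [← image_interior_sim hf]
    let e : E ≃ E := f.trans (Equiv.mk (fun x => c⁻¹ • x) (fun x => c • x)
      (fun x => by simp [smul_smul, hf.1.ne']) (fun x => by simp [smul_smul, hf.1.ne']))
    have he : ∀ x, e x = c⁻¹ • f x := fun x => rfl
    have hiso : Isometry e := by
      refine Isometry.of_dist_eq fun x y => ?_
      rw [he, he, dist_smul₀, hf.2, Real.norm_eq_abs, abs_of_pos (inv_pos.mpr hf.1), ← mul_assoc,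
        inv_mul_cancel₀ hf.1.ne', one_mul]
    let g : E ≃ᵢ E := ⟨e, hiso⟩
    have hfg : ∀ x, f x = c • g x := fun x => by
      show f x = c • e x
      rw [he, smul_smul, mul_inv_cancel₀ hf.1.ne', one_smul]
    have h4 : f '' interior A = c • (g '' interior A) := by
      rw [← image_smul, image_image]
      exact image_congr fun x _ => hfg x
    have h5 : μ (g '' interior A) = μ (interior (P i)) := by
      have h6 : μ (g '' interior A) = μ (interior A) := volume_image_isom g _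
      rw [h6, hgA, hvolg]
    rw [h4, Measure.addHaar_smul, h5, abs_of_pos (pow_pos hf.1 _)]
  have hsub : interior A₁ ∪ interior A₂ ⊆ interior (f '' A) := by
    apply union_subset
    · apply interior_mono
      rw [h3]; exact subset_sUnion_of_mem hA₁
    · apply interior_mono
      rw [h3]; exact subset_sUnion_of_mem hA₂
  have hdisj := hT.1.disjoint A₁ (h1 hA₁) A₂ (h1 hA₂) hne12
  have hle : μ (interior (P i)) + μ (interior (P i)) ≤
      ENNReal.ofReal (c ^ Module.finrank ℝ E) * μ (interior (P i)) := by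
    rw [← hscale]
    refine le_trans ?_ (measure_mono hsub)
    rw [measure_union hdisj isOpen_interior.measurableSet]
    exact add_le_add (hvol _ (h1 hA₁)) (hvol _ (h1 hA₂))
  have hle2 : 2 ≤ c ^ Module.finrank ℝ E := by
    have h5 : (2 : ENNReal) * μ (interior (P i)) ≤
        ENNReal.ofReal (c ^ Module.finrank ℝ E) * μ (interior (P i)) := by rwa [two_mul]
    have h6 := (ENNReal.mul_le_mul_iff_left hvpos.ne' hvfin).mp h5
    have h7 : ENNReal.ofReal 2 ≤ ENNReal.ofReal (c ^ Module.finrank ℝ E) := by simpa using h6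
    exact (ENNReal.ofReal_le_ofReal_iff (pow_pos hf.1 _).le).mp h7
  by_contra hcon
  push Not at hcon
  have h8 : c ^ Module.finrank ℝ E < qq E ^ Module.finrank ℝ E :=
    pow_lt_pow_left₀ hcon hf.1.le (Module.finrank_pos).ne'
  have := qq_pow (E := E)
  linarith

theorem exists_proto (hP : ∀ i, IsCompact (P i)) (hne : ∀ i < m, (interior (P i)).Nonempty) :
    ∃ p₀ r D, Proto P m p₀ r D := by
  obtain ⟨D, hD⟩ := exists_bound hP m
  have hp0 : ∀ i, ∃ p : E, ∃ r : ℝ, 0 < r ∧ (i < m → ball p r ⊆ P i ∧ p ∈ P i) := by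
    intro i
    by_cases hi : i < m
    · obtain ⟨p, hp⟩ := hne i hi
      obtain ⟨r, hr, hb⟩ := Metric.isOpen_iff.mp isOpen_interior p hp
      exact ⟨p, r, hr, fun _ => ⟨hb.trans interior_subset, interior_subset hp⟩⟩
    · exact ⟨0, 1, one_pos, fun h => absurd h hi⟩
  choose p₀ r hr hb using hp0
  have hmin : ∀ n : ℕ, ∃ ρ : ℝ, 0 < ρ ∧ ∀ i < n, ρ ≤ r i := by
    intro n
    induction n with
    | zero => exact ⟨1, one_pos, fun i hi => absurd hi (Nat.not_lt_zero i)⟩
    | succ n ih =>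
      obtain ⟨ρ, hρ, h⟩ := ih
      refine ⟨min ρ (r n), lt_min hρ (hr n), fun i hi => ?_⟩
      rcases Nat.lt_succ_iff_lt_or_eq.1 hi with h1 | h1
      · exact (min_le_left _ _).trans (h i h1)
      · rw [h1]; exact min_le_right _ _
  obtain ⟨ρ, hρ, hρi⟩ := hmin m
  refine ⟨p₀, ρ, 2 * D, hρ, fun i hi => (ball_subset_ball (hρi i hi)).trans (hb i hi).1, ?_⟩
  intro i hi p hp
  rw [mem_closedBall, dist_eq_norm]
  have h1 := hD i hi p hp
  have h2 := hD i hi _ (hb i hi).2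
  have h3 := norm_sub_le p (p₀ i)
  linarith

/-- The theorem for an enumerated family of prototiles. -/
theorem main_family {𝒞 : Set (Set E)} (h𝒞 : IsTileClass 𝒞) (hP : ∀ i, IsCompact (P i))
    (hPC : ∀ i < m, P i ∈ 𝒞) (hne : ∀ i < m, (interior (P i)).Nonempty)
    (hex : ∃ T, AdmF 𝒞 P m T) :
    ∃ T, AdmF 𝒞 P m T ∧ ((∀ k : ℕ, 2 ≤ k → ¬ IsKSimilarity 𝒞 k T) ∨
      ∃ k : ℕ, IsKSimilarity 𝒞 k T ∧ ∃ T₁ T₂, T₁ ≠ T₂ ∧
        (IsComposition 𝒞 k T₁ T ∧ Equal T T₁) ∧ (IsComposition 𝒞 k T₂ T ∧ Equal T T₂)) := by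
  by_contra hcon
  push Not at hcon
  obtain ⟨T₀, hT₀⟩ := hex
  obtain ⟨p₀, r, D, hproto⟩ := exists_proto hP hne
  have hq1 := one_lt_qq (E := E)
  have : CompactSpace (X P m) := compactSpace_X hP
  have : Nonempty (X P m) := ⟨⟨_, isPl_of_admits hP hne hT₀⟩⟩
  -- coverage
  have hcov : ∀ (C : X P m) (k : ℕ), 2 ≤ k →
      (∃ T₁, IsComposition 𝒞 k T₁ (tiling P C.1) ∧ Equal (tiling P C.1) T₁) →
      ∃ n, C ∈ Yset P m (qq E) k n := by
    rintro C k hk ⟨T₁, hT₁, f, hf, hfT⟩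
    obtain ⟨d, hd1, hd2, rfl⟩ := exists_data hf
    obtain ⟨e, he, hs⟩ := exists_perm hd1 hd2
    have hfe : expand d = e := by ext1 x; exact (he x).symm
    have hadm := admits_tiling h𝒞 hPC hne C.2
    have hcomp : IsComposition 𝒞 k (img (expand d) (tiling P C.1)) (tiling P C.1) := by
      unfold img; rw [hfT]; exact hT₁
    have hge : qq E ≤ d.2 := by
      rw [hfe] at hcomp
      exact ratio_ge hP hne hadm hk hs hcomp
    obtain ⟨n₁, hn₁⟩ := exists_nat_ge d.2
    obtain ⟨n₂, hn₂⟩ := exists_nat_ge ‖d.1‖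
    refine ⟨max n₁ n₂, d, hd1, hge, ?_, ?_, comp_of_isComposition hcomp⟩
    · exact hn₁.trans (by exact_mod_cast le_max_left _ _)
    · exact hn₂.trans (by exact_mod_cast le_max_right _ _)
  have hsim : ∀ C : X P m, ∃ k, 2 ≤ k ∧ IsKSimilarity 𝒞 k (tiling P C.1) := by
    intro C
    have hadm := admits_tiling h𝒞 hPC hne C.2
    obtain ⟨k, hk, hk'⟩ := (hcon _ hadm).1
    exact ⟨k, hk, hk'⟩
  obtain ⟨k, n, C, hmin, hrec⟩ := recurrence (X := X P m) trans trans_zero trans_add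
    continuous_trans (fun k n => Yset P m (qq E) (k + 2) n)
    (fun k n => isClosed_Yset hP hne (by linarith) (k + 2) n)
    (by
      intro C
      obtain ⟨k, hk, hk'⟩ := hsim C
      obtain ⟨n, hn⟩ := hcov C k hk hk'.2.1
      refine ⟨k - 2, n, ?_⟩
      have : k - 2 + 2 = k := by omega
      simpa only [this] using hn)
  have hadm := admits_tiling h𝒞 hPC hne C.2
  -- expansions of `C` from recurrence
  have hexp : ∀ R : ℝ, ∃ (c : ℝ) (f : Equiv.Perm E) (x : E), Sim c f ∧ 1 < c ∧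
      IsComposition 𝒞 (k + 2) (img f (tiling P C.1)) (tiling P C.1) ∧ f x = x ∧
      R - n / (qq E - 1) < ‖x‖ := by
    intro R
    obtain ⟨a, ha, d, hd1, hd2, hd3, hd4, hd5⟩ := hrec R
    have hc0 : 0 < d.2 := by linarith
    obtain ⟨e, he, hs⟩ := exists_perm hd1 hc0
    let τ : Equiv.Perm E := Equiv.addRight a
    have hτ : Sim 1 τ := ⟨one_pos, fun x y => by
      show dist (x + a) (y + a) = 1 * dist x y
      rw [dist_add_right, one_mul]⟩
    let f : Equiv.Perm E := τ⁻¹ * e * τ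
    have hf : Sim d.2 f := by
      have := (hτ.inv.mul hs).mul hτ
      simpa using this
    have hfx : ∀ x, f x = expand d (x + a) - a := by
      intro x
      show (τ.symm) (e (x + a)) = _
      rw [he]
      show expand d (x + a) + -a = _
      rw [sub_eq_add_neg]
    -- fixed point of `e`
    have hfix : ∃ y, e y = y := by
      have hK : d.2⁻¹ < 1 := inv_lt_one_of_one_lt₀ (by linarith)
      have hcontr : ContractingWith ⟨d.2⁻¹, (inv_pos.mpr hc0).le⟩ (e⁻¹ : Equiv.Perm E) := by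
        refine ⟨NNReal.coe_lt_coe.mp ?_,
          LipschitzWith.of_dist_le_mul fun x y => (hs.inv.2 x y).le⟩
        exact hK
      have : CompleteSpace E := FiniteDimensional.complete ℝ E
      obtain ⟨y, hy, _⟩ := hcontr.exists_fixedPoint 0 (edist_ne_top _ _)
      refine ⟨y, ?_⟩
      have h1 : (e⁻¹ : Equiv.Perm E) y = y := hy
      conv_lhs => rw [← h1]
      exact e.apply_symm_apply y
    obtain ⟨y, hy⟩ := hfix
    have hyn : ‖y‖ ≤ n / (qq E - 1) := by
      rw [he] at hy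
      have h1 : d.2 • d.1.2 y = y - d.1.1 := by
        rw [eq_sub_iff_add_eq, add_comm]
        exact hy
      have h2 : d.2 * ‖y‖ ≤ ‖y‖ + ‖d.1.1‖ := by
        calc d.2 * ‖y‖ = ‖d.2 • d.1.2 y‖ := by
              rw [norm_smul, hd1, Real.norm_eq_abs, abs_of_pos hc0]
          _ ≤ _ := by rw [h1]; exact norm_sub_le _ _
      have h3 : ‖d.1.1‖ ≤ n := (norm_fst_le _).trans hd4
      have h4 := norm_nonneg y
      rw [le_div_iff₀ (by linarith)]
      nlinarith
    refine ⟨d.2, f, y - a, hf, by linarith, ?_, ?_, ?_⟩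
    · apply isComposition_of_comp h𝒞 hadm hf
      have h1 := comp_shift hd5
      have h2 : (fun x => expand d (x + a) - a) = f := by
        ext1 x; exact (hfx x).symm
      rwa [h2] at h1
    · rw [hfx, sub_add_cancel, ← he, hy]
    · have h5 : ‖a‖ ≤ ‖y - a‖ + ‖y‖ := by
        calc ‖a‖ = ‖y - (y - a)‖ := by congr 1; abel
          _ ≤ ‖y‖ + ‖y - a‖ := norm_sub_le _ _
          _ = _ := add_comm _ _
      linarith
  -- the minimal `k`
  obtain ⟨k₀, hk₀2, hk₀⟩ := hsim C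
  have hkeq : k₀ = k + 2 := by
    rcases lt_trichotomy k₀ (k + 2) with h | h | h
    · exfalso
      obtain ⟨m', hm⟩ := hcov C k₀ hk₀2 hk₀.2.1
      apply hmin (k₀ - 2) (by omega) m'
      have : k₀ - 2 + 2 = k₀ := by omega
      simpa only [this] using hm
    · exact h
    · exfalso
      obtain ⟨c, f, x, hf, _, hcomp, _, _⟩ := hexp 0
      exact hk₀.2.2 (k + 2) (by omega) h ⟨_, hcomp, equal_img hf _⟩
  subst hkeq
  obtain ⟨T₁, hT₁⟩ := hk₀.2.1
  have huniq : ∀ T', IsComposition 𝒞 (k + 2) T' (tiling P C.1) → Equal (tiling P C.1) T' →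
      T' = T₁ := by
    intro T' h1 h2
    by_contra hne'
    exact (hcon _ hadm).2 (k + 2) hk₀ T' T₁ hne' ⟨h1, h2⟩ hT₁.1 hT₁.2
  obtain ⟨c₁, f₁, x₁, hf₁, hc₁, hcomp₁, hx₁, _⟩ := hexp 0
  obtain ⟨c₂, f₂, x₂, hf₂, hc₂, hcomp₂, hx₂, hfar⟩ := hexp (‖x₁‖ + n / (qq E - 1))
  have heq := fixed_eq h𝒞 hproto hadm huniq hf₁ hf₂ hc₂ hcomp₁ hcomp₂ hx₁ hx₂
  rw [heq] at hfar
  linarith

/-- a finite set of sets as an initial segment of a sequence -/
theorem exists_enum (𝒬 : Set (Set E)) (hfin : 𝒬.Finite) :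
    ∃ (P : ℕ → Set E) (m : ℕ), (∀ i < m, P i ∈ 𝒬) ∧ (∀ A ∈ 𝒬, ∃ i < m, P i = A) ∧
      ∀ i, m ≤ i → P i = ∅ := by
  classical
  obtain ⟨l, hl⟩ := hfin.toFinset.exists_list_nodup_eq
  have hl' : ∀ A, A ∈ l ↔ A ∈ 𝒬 := by
    intro A
    rw [← List.mem_toFinset, hl.2, Set.Finite.mem_toFinset]
  refine ⟨fun i => if h : i < l.length then l[i] else ∅, l.length, ?_, ?_, ?_⟩
  · intro i hi
    simp only [dif_pos hi]
    exact (hl' _).1 (List.getElem_mem hi)
  · intro A hA
    obtain ⟨i, hi, h⟩ := List.getElem_of_mem ((hl' A).2 hA)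
    refine ⟨i, hi, ?_⟩
    simp only [dif_pos hi]
    exact h
  · intro i hi
    simp only [dif_neg (not_lt.2 hi)]

/-- **Main theorem.** -/
theorem main_thm {𝒞 : Set (Set E)} (h𝒞 : IsTileClass 𝒞) (𝒬 : Set (Set E)) (hfin : 𝒬.Finite)
    (hint : (∀ P ∈ 𝒬, (interior P).Nonempty) ∨ 𝒬.Subsingleton) (hex : ∃ T, Admits 𝒞 𝒬 T) :
    ∃ T, Admits 𝒞 𝒬 T ∧ ((∀ k : ℕ, 2 ≤ k → ¬ IsKSimilarity 𝒞 k T) ∨
      ∃ k : ℕ, IsKSimilarity 𝒞 k T ∧ ∃ T₁ T₂, T₁ ≠ T₂ ∧
        (IsComposition 𝒞 k T₁ T ∧ Equal T T₁) ∧ (IsComposition 𝒞 k T₂ T ∧ Equal T T₂)) := by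
  obtain ⟨T₀, hT₀⟩ := hex
  -- a prototile which is used is an admissible tile
  have hcl : ∀ (A P : Set E) (g : E ≃ᵢ E), A ∈ 𝒞 → A = g '' P → P ∈ 𝒞 := by
    intro A P g hA hg
    have h1 : g.symm '' A = P := by
      rw [hg, image_image]; simp
    have h2 := tile_image h𝒞 (exists_perm_isom g.symm) hA
    have h3 : (g.symm.toEquiv : E → E) = g.symm := rfl
    rwa [h3, h1] at h2
  -- all prototiles have nonempty interior
  have hint' : ∀ P ∈ 𝒬, (interior P).Nonempty := by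
    rcases hint with h | h
    · exact h
    · intro P hPQ
      have hall : ∀ A ∈ T₀, ∃ g : E ≃ᵢ E, A = g '' P := by
        intro A hA
        obtain ⟨P', hP', g, hg⟩ := hT₀.2 A hA
        rw [h hP' hPQ] at hg
        exact ⟨g, hg⟩
      have hcount : Countable T₀ := hT₀.1.countable.to_subtype
      have hcl : ∀ A : T₀, IsClosed (A : Set E) := fun A =>
        (h𝒞.compact _ (hT₀.1.tile _ A.2)).isClosed
      have h1 := nonempty_interior_of_iUnion_of_closed (f := fun A : T₀ => (A : Set E)) hcl (by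
        rw [← sUnion_eq_iUnion, hT₀.1.cover])
      obtain ⟨A, hA⟩ := h1
      obtain ⟨g, hg⟩ := hall A A.2
      rw [hg] at hA
      have h2 : interior (g '' P) = g '' interior P := (g.toHomeomorph.image_interior P).symm
      rw [h2] at hA
      exact hA.of_image
  obtain ⟨P, m, h1, h2, h3⟩ := exists_enum (𝒬 ∩ 𝒞) (hfin.inter_of_left 𝒞)
  have hadm : ∀ T, AdmF 𝒞 P m T ↔ Admits 𝒞 𝒬 T := by
    intro T
    constructor
    · rintro ⟨h4, h5⟩
      refine ⟨h4, fun A hA => ?_⟩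
      obtain ⟨i, hi, g, hg⟩ := h5 A hA
      exact ⟨P i, (h1 i hi).1, g, hg⟩
    · rintro ⟨h4, h5⟩
      refine ⟨h4, fun A hA => ?_⟩
      obtain ⟨P', hP', g, hg⟩ := h5 A hA
      obtain ⟨i, hi, e⟩ := h2 P' ⟨hP', hcl A P' g (h4.tile A hA) hg⟩
      exact ⟨i, hi, g, by rw [e]; exact hg⟩
  have hP : ∀ i, IsCompact (P i) := by
    intro i
    by_cases hi : i < m
    · exact h𝒞.compact _ (h1 i hi).2
    · rw [h3 i (not_lt.1 hi)]
      exact isCompact_empty
  obtain ⟨T, hT, h4⟩ := main_family h𝒞 hP (fun i hi => (h1 i hi).2)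
    (fun i hi => hint' _ (h1 i hi).1) ⟨T₀, (hadm T₀).2 hT₀⟩
  exact ⟨T, (hadm T).1 hT, h4⟩

/-- the closed topological balls are a class of tiles -/
theorem tileClass_balls : IsTileClass {A : Set E | Nonempty (A ≃ₜ closedBall (0 : E) 1)} := by
  refine ⟨?_, ?_⟩
  · rintro A ⟨e⟩
    have h1 : CompactSpace (closedBall (0 : E) 1) :=
      isCompact_iff_compactSpace.mp (isCompact_closedBall 0 1)
    have h2 : CompactSpace A := e.symm.compactSpace
    exact isCompact_iff_compactSpace.mpr h2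
  · rintro f hf A ⟨u⟩
    obtain ⟨c, s, rfl, hs⟩ := exists_perm' hf
    obtain ⟨e, he⟩ := exists_homeo hs
    have : (s : E → E) = e := by ext1 x; exact (he x).symm
    rw [this]
    exact ⟨(e.image A).symm.trans u⟩

/-- the compact sets are a class of tiles -/
theorem tileClass_compact : IsTileClass {A : Set E | IsCompact A} := by
  refine ⟨fun A hA => hA, ?_⟩
  intro f hf A hA
  obtain ⟨c, s, rfl, hs⟩ := exists_perm' hf
  obtain ⟨e, he⟩ := exists_homeo hs
  have : (s : E → E) = e := by ext1 x; exact (he x).symm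
  rw [this]
  exact IsCompact.image hA e.continuous

end Pool.Agent.Y769.SP
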